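import Pool.Agent.W27.BG.Main
import Pool.Agent.W27.SD.Main

/-! Consequences: sets that are almost invariant under a set of bounded doubling. -/

set_option autoImplicit false

open Finset
open scoped Pointwise

namespace Pool.Agent.W27.BG

open Pool.Agent.W27.SD

/-- the bound for all sets `A` with `|A + B| ≤ p ^ τ |A|` -/
theorem invariant_form (δ ε K : ℝ) (hδ : 0 < δ) (hε0 : 0 < ε) (hε16 : ε ≤ 1 / 16)
    (hδε : δ + 4 * ε ≤ 1 / 2) :
    ∃ κ : ℝ, 0 < κ ∧ κ ≤ ε / 32 ∧ ∀ k : ℕ, 1 ≤ k → ∃ τ : ℝ, 0 < τ ∧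
      ∃ P : ℕ, ∀ (p : ℕ) [Fact p.Prime], P ≤ p →
      ∀ (χ : DirichletCharacter ℂ p) (L : ℕ) [NeZero (2 * L)], L = ⌊(p : ℝ) ^ κ⌋₊ →
      ((Bad L χ ((L : ℝ) ^ (1 - 1 / (2 * (k : ℝ))))).card : ℝ) ≤ (p : ℝ) ^ (2 * δ) →
      ∀ B : Finset (ZMod p), (p : ℝ) ^ (δ + 4 * ε) < B.card →
        ((B + B).card : ℝ) ≤ K * B.card → ∀ A : Finset (ZMod p), A.Nonempty →
        ((A + B).card : ℝ) ≤ (p : ℝ) ^ τ * A.card →
        (∀ f g : ZMod p → ℂ, ‖∑ a ∈ A, ∑ b ∈ A, f a * g b * χ (a - b)‖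
          ≤ (A.card : ℝ) ^ (1 - τ) *
            (Real.sqrt (∑ a ∈ A, ‖f a‖ ^ 2) * Real.sqrt (∑ b ∈ A, ‖g b‖ ^ 2))) ∧
        (∀ A' : Finset (ZMod p), A' ⊆ A → (A.card : ℝ) ≤ (p : ℝ) ^ τ * A'.card →
          ‖∑ a ∈ A', ∑ b ∈ A', χ (a - b)‖ < (A'.card : ℝ) ^ (2 - τ)) := by
  classical
  obtain ⟨κ, hκ0, hκε, hrest⟩ := master δ ε (max K 1) hδ hε0 hε16 hδε (le_max_right _ _)
  refine ⟨κ, hκ0, hκε, ?_⟩
  intro k hk
  obtain ⟨η, hη, P, hP⟩ := hrest k hk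
  refine ⟨η / 8, by positivity, P, ?_⟩
  intro p _ hp χ L _ hL hbad B hB hBK A hA hAB
  have hp1' : (1 : ℝ) < p := by exact_mod_cast (Fact.out : p.Prime).one_lt
  have hp1 : (1 : ℝ) ≤ p := hp1'.le
  have hp0 : (0 : ℝ) < p := by linarith
  have hB0 : (0 : ℝ) < B.card := lt_of_le_of_lt (by positivity) hB
  have hBne : B.Nonempty := by
    rw [← Finset.card_pos]
    exact_mod_cast hB0
  have hA0 : (0 : ℝ) < A.card := by exact_mod_cast hA.card_pos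
  have hA1 : (1 : ℝ) ≤ A.card := by exact_mod_cast hA.card_pos
  have hAp : (A.card : ℝ) ≤ p := by
    have h := Finset.card_le_univ A
    rw [ZMod.card] at h
    exact_mod_cast h
  -- covering
  obtain ⟨F, hFA, hFcard, hFcov⟩ := Finset.ruzsa_covering_add (A := A) (B := B)
    (K := (p : ℝ) ^ (η / 8) * A.card / B.card) hBne (by
      rw [div_mul_cancel₀ _ hB0.ne']
      exact hAB)
  have hcov : ∀ a ∈ A, ∃ x ∈ F, ∃ b ∈ B, ∃ b' ∈ B, a = x + (b - b') := by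
    intro a ha
    have h1 := hFcov ha
    rw [Finset.mem_add] at h1
    obtain ⟨x, hx, d, hd, e⟩ := h1
    rw [Finset.mem_sub] at hd
    obtain ⟨b, hb, b', hb', e'⟩ := hd
    exact ⟨x, hx, b, hb, b', hb', by rw [e', e]⟩
  have hFB : (F.card : ℝ) * B.card ≤ (p : ℝ) ^ (η / 8) * A.card := by
    rwa [le_div_iff₀ hB0] at hFcard
  have ham : ∀ f g : ZMod p → ℂ, ‖∑ a ∈ A, ∑ b ∈ A, f a * g b * χ (a - b)‖
      ≤ ((p : ℝ) ^ (-(7 * η / 8)) * A.card)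
        * ((∑ a ∈ A, ‖f a‖ ^ 2 + ∑ b ∈ A, ‖g b‖ ^ 2) / 2) := by
    intro f g
    refine (hP p hp χ L hL hbad B hB (hBK.trans (mul_le_mul_of_nonneg_right (le_max_left _ _)
      (Nat.cast_nonneg _))) F A hcov f g).trans (mul_le_mul_of_nonneg_right ?_ ?_)
    · calc (p : ℝ) ^ (-η) * (F.card * B.card) ≤ (p : ℝ) ^ (-η) * ((p : ℝ) ^ (η / 8) * A.card) :=
            mul_le_mul_of_nonneg_left hFB (by positivity)
        _ = (p : ℝ) ^ (-(7 * η / 8)) * A.card := by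
            rw [← mul_assoc, ← Real.rpow_add hp0]
            congr 2
            ring
    · have h1 : 0 ≤ ∑ a ∈ A, ‖f a‖ ^ 2 := Finset.sum_nonneg fun _ _ => by positivity
      have h2 : 0 ≤ ∑ b ∈ A, ‖g b‖ ^ 2 := Finset.sum_nonneg fun _ _ => by positivity
      positivity
  have hgm := amgm_form A (fun a b => χ (a - b)) ((p : ℝ) ^ (-(7 * η / 8)) * A.card)
    (by positivity) ham
  refine ⟨?_, ?_⟩
  · intro f g
    refine (hgm f g).trans (mul_le_mul_of_nonneg_right ?_ (by positivity))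
    calc (p : ℝ) ^ (-(7 * η / 8)) * A.card ≤ (p : ℝ) ^ (-(η / 8)) * A.card :=
          mul_le_mul_of_nonneg_right
            (Real.rpow_le_rpow_of_exponent_le hp1 (by linarith)) hA0.le
      _ ≤ (A.card : ℝ) ^ (-(η / 8)) * A.card :=
          mul_le_mul_of_nonneg_right
            (Real.rpow_le_rpow_of_nonpos hA0 hAp (by linarith)) hA0.le
      _ = (A.card : ℝ) ^ (1 - η / 8) := by
          rw [← Real.rpow_add_one hA0.ne']
          congr 1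
          ring
  · intro A' hA' hAA'
    have hA'0 : (0 : ℝ) < A'.card := by
      by_contra hcon
      have h0 : (A'.card : ℝ) = 0 := le_antisymm (not_lt.1 hcon) (Nat.cast_nonneg _)
      rw [h0, mul_zero] at hAA'
      linarith
    have hA'p : (A'.card : ℝ) ≤ p :=
      (by exact_mod_cast Finset.card_le_card hA' : (A'.card : ℝ) ≤ A.card).trans hAp
    have h1 := hgm (fun a => if a ∈ A' then 1 else 0) (fun a => if a ∈ A' then 1 else 0)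
    have e0 : A.filter (fun a => a ∈ A') = A' := by
      ext a
      rw [Finset.mem_filter]
      exact ⟨fun h => h.2, fun h => ⟨hA' h, h⟩⟩
    have e1 : ∑ a ∈ A, ∑ b ∈ A, (if a ∈ A' then (1 : ℂ) else 0) * (if b ∈ A' then (1 : ℂ) else 0)
        * χ (a - b) = ∑ a ∈ A', ∑ b ∈ A', χ (a - b) := by
      have e2 : ∀ a, ∑ b ∈ A, (if a ∈ A' then (1 : ℂ) else 0) * (if b ∈ A' then (1 : ℂ) else 0)
          * χ (a - b) = if a ∈ A' then ∑ b ∈ A', χ (a - b) else 0 := by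
        intro a
        by_cases ha : a ∈ A'
        · simp only [if_pos ha, one_mul]
          rw [← e0, Finset.sum_filter, e0]
          refine Finset.sum_congr rfl fun b _ => ?_
          split_ifs <;> simp
        · simp [ha]
      simp only [e2]
      rw [← Finset.sum_filter, e0]
    have e3 : ∑ a ∈ A, ‖(if a ∈ A' then (1 : ℂ) else 0)‖ ^ 2 = A'.card := by
      have e4 : ∀ a, ‖(if a ∈ A' then (1 : ℂ) else 0)‖ ^ 2 = if a ∈ A' then (1 : ℝ) else 0 := by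
        intro a
        split_ifs <;> simp
      simp only [e4]
      rw [← Finset.sum_filter, e0]
      simp
    simp only at h1
    rw [e1, e3, Real.mul_self_sqrt (Nat.cast_nonneg _)] at h1
    refine lt_of_le_of_lt h1 ?_
    calc (p : ℝ) ^ (-(7 * η / 8)) * A.card * A'.card
        ≤ (p : ℝ) ^ (-(7 * η / 8)) * ((p : ℝ) ^ (η / 8) * A'.card) * A'.card :=
          mul_le_mul_of_nonneg_right (mul_le_mul_of_nonneg_left hAA' (by positivity)) hA'0.le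
      _ = (p : ℝ) ^ (-(6 * η / 8)) * (A'.card * A'.card) := by
          rw [← mul_assoc, ← Real.rpow_add hp0, mul_assoc]
          congr 2
          ring
      _ < (p : ℝ) ^ (-(η / 8)) * (A'.card * A'.card) := by
          refine mul_lt_mul_of_pos_right ?_ (by positivity)
          exact Real.rpow_lt_rpow_of_exponent_lt hp1' (by linarith)
      _ ≤ (A'.card : ℝ) ^ (-(η / 8)) * (A'.card * A'.card) :=
          mul_le_mul_of_nonneg_right (Real.rpow_le_rpow_of_nonpos hA'0 hA'p (by linarith))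
            (by positivity)
      _ = (A'.card : ℝ) ^ (2 - η / 8) := by
          rw [← mul_assoc, ← Real.rpow_add_one hA'0.ne', ← Real.rpow_add_one hA'0.ne']
          congr 1
          ring

/-- exponents above `1 / 4`: every character -/
theorem quarter (δ K : ℝ) (hδ : 1 / 4 < δ) :
    ∃ τ : ℝ, 0 < τ ∧ ∃ P : ℕ, ∀ p : ℕ, p.Prime → P ≤ p →
      ∀ χ : DirichletCharacter ℂ p, χ ≠ 1 → ∀ A B : Finset (ZMod p), A.Nonempty →
        (p : ℝ) ^ δ < B.card → ((B + B).card : ℝ) ≤ K * B.card →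
        ((A + B).card : ℝ) ≤ (p : ℝ) ^ τ * A.card →
        (∀ f g : ZMod p → ℂ, ‖∑ a ∈ A, ∑ b ∈ A, f a * g b * χ (a - b)‖
          ≤ (A.card : ℝ) ^ (1 - τ) *
            (Real.sqrt (∑ a ∈ A, ‖f a‖ ^ 2) * Real.sqrt (∑ b ∈ A, ‖g b‖ ^ 2))) ∧
        (∀ A' : Finset (ZMod p), A' ⊆ A → (A.card : ℝ) ≤ (p : ℝ) ^ τ * A'.card →
          ‖∑ a ∈ A', ∑ b ∈ A', χ (a - b)‖ < (A'.card : ℝ) ^ (2 - τ)) := by
  obtain ⟨ε, hεdef⟩ : ∃ ε : ℝ, ε = min ((δ - 1 / 4) / 5) (1 / 32) := ⟨_, rfl⟩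
  have hε0 : 0 < ε := by
    rw [hεdef]
    exact lt_min (by linarith) (by norm_num)
  have hεδ : 1 / 4 + 5 * ε ≤ δ := by
    have := min_le_left ((δ - 1 / 4) / 5) (1 / 32 : ℝ)
    rw [← hεdef] at this
    linarith
  have hε32 : ε ≤ 1 / 32 := by
    rw [hεdef]
    exact min_le_right _ _
  obtain ⟨κ, hκ0, hκε, hrest⟩ := invariant_form (1 / 4 + ε) ε K (by linarith) hε0 (by linarith)
    (by linarith)
  obtain ⟨k, hk, P1, hP1⟩ := weil_bad κ ε hκ0 hκε (by linarith)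
  obtain ⟨τ, hτ, P2, hP2⟩ := hrest k hk
  obtain ⟨P3, hP3⟩ := large_rpow κ 1 hκ0
  refine ⟨τ, hτ, P1 + P2 + P3, ?_⟩
  intro p hpp hp χ hχ A B hA hB hBK hAB
  have : Fact p.Prime := ⟨hpp⟩
  have hp1 : (1 : ℝ) ≤ p := by exact_mod_cast hpp.one_lt.le
  have hL1 : 1 ≤ ⌊(p : ℝ) ^ κ⌋₊ := Nat.le_floor (by
    have := hP3 p (by omega)
    push_cast
    exact this.le)
  have : NeZero (2 * ⌊(p : ℝ) ^ κ⌋₊) := ⟨by omega⟩
  refine hP2 p (by omega) χ ⌊(p : ℝ) ^ κ⌋₊ rfl (hP1 p (by omega) χ _ hχ rfl) B ?_ hBK A hA hAB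
  refine lt_of_le_of_lt ?_ hB
  exact Real.rpow_le_rpow_of_exponent_le hp1 (by linarith)

/-- exponents up to `1 / 4`: all characters but few -/
theorem uniform (δ ε K : ℝ) (hδ : 0 < δ) (hδ4 : δ ≤ 1 / 4) (hε : 0 < ε) :
    ∃ τ : ℝ, 0 < τ ∧ ∃ P : ℕ, ∀ p : ℕ, p.Prime → P ≤ p →
      ({χ : DirichletCharacter ℂ p | χ ≠ 1 ∧ ∃ A B : Finset (ZMod p), A.Nonempty ∧
        (p : ℝ) ^ δ < (B.card : ℝ) ∧ ((B + B).card : ℝ) ≤ K * B.card ∧
        ((A + B).card : ℝ) ≤ (p : ℝ) ^ τ * A.card ∧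
        ∃ A' : Finset (ZMod p), A' ⊆ A ∧ (A.card : ℝ) ≤ (p : ℝ) ^ τ * A'.card ∧
          (A'.card : ℝ) ^ (2 - τ) ≤ ‖∑ a ∈ A', ∑ b ∈ A', χ (a - b)‖}.ncard : ℝ)
        ≤ (p : ℝ) ^ (1 - 2 * δ + ε) := by
  classical
  obtain ⟨e, hedef⟩ : ∃ e : ℝ, e = min (ε / 16) (min (δ / 8) (1 / 16)) := ⟨_, rfl⟩
  have he0 : 0 < e := by
    rw [hedef]
    exact lt_min (by linarith) (lt_min (by linarith) (by norm_num))
  have he1 : e ≤ ε / 16 := by rw [hedef]; exact min_le_left _ _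
  have he2 : e ≤ δ / 8 := by rw [hedef]; exact (min_le_right _ _).trans (min_le_left _ _)
  have he3 : e ≤ 1 / 16 := by rw [hedef]; exact (min_le_right _ _).trans (min_le_right _ _)
  obtain ⟨κ, hκ0, hκe, hrest⟩ := invariant_form (δ - 4 * e) e K (by linarith) he0 he3
    (by linarith)
  obtain ⟨k, hk⟩ := exists_nat_ge (2 / κ)
  have hκk : 1 ≤ κ / 2 * k := by
    rw [div_le_iff₀ hκ0] at hk
    linarith
  have hk1 : 1 ≤ k := by
    rcases Nat.eq_zero_or_pos k with h | h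
    · subst h
      simp at hκk
      linarith
    · exact h
  obtain ⟨τ, hτ, P2, hP2⟩ := hrest k hk1
  obtain ⟨P3, hP3⟩ := large_rpow κ 1 hκ0
  obtain ⟨P4, hP4⟩ := large_rpow (κ / 2) 2 (by positivity)
  obtain ⟨P5, hP5⟩ := large_rpow (ε / 4) (2 * 4 ^ k * (k + (k : ℝ) ^ k)) (by positivity)
  refine ⟨τ, hτ, P2 + P3 + P4 + P5, ?_⟩
  intro p hpp hp
  have : Fact p.Prime := ⟨hpp⟩
  have hP4' := hP4 p (by omega)
  have hP5' := hP5 p (by omega)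
  have hp1n : 1 < p := hpp.one_lt
  have hp1 : (1 : ℝ) ≤ p := by exact_mod_cast hp1n.le
  have hp0 : (0 : ℝ) < p := by linarith
  obtain ⟨L, hLdef⟩ : ∃ L : ℕ, L = ⌊(p : ℝ) ^ κ⌋₊ := ⟨_, rfl⟩
  have hL1 : 1 ≤ L := by
    rw [hLdef]
    exact Nat.le_floor (by
      have := hP3 p (by omega)
      push_cast
      exact this.le)
  have : NeZero (2 * L) := ⟨by omega⟩
  have hLle : (L : ℝ) ≤ (p : ℝ) ^ κ := by rw [hLdef]; exact Nat.floor_le (by positivity)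
  have hLlt : (p : ℝ) ^ κ < L + 1 := by rw [hLdef]; exact Nat.lt_floor_add_one _
  have hL0 : (0 : ℝ) < L := by exact_mod_cast hL1
  have hLR : (1 : ℝ) ≤ L := by exact_mod_cast hL1
  have hLbig : (p : ℝ) ^ (κ / 2) ≤ L := by
    have e1 : (p : ℝ) ^ κ = (p : ℝ) ^ (κ / 2) * (p : ℝ) ^ (κ / 2) := by
      rw [← Real.rpow_add hp0]; congr 1; ring
    rw [e1] at hLlt
    nlinarith [Real.rpow_pos_of_pos hp0 (κ / 2)]
  have hLk : (p : ℝ) ≤ (L : ℝ) ^ k := by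
    calc (p : ℝ) = (p : ℝ) ^ (1 : ℝ) := (Real.rpow_one _).symm
      _ ≤ (p : ℝ) ^ (κ / 2 * k) := Real.rpow_le_rpow_of_exponent_le hp1 hκk
      _ = ((p : ℝ) ^ (κ / 2)) ^ k := by rw [Real.rpow_mul hp0.le, Real.rpow_natCast]
      _ ≤ (L : ℝ) ^ k := pow_le_pow_left₀ (by positivity) hLbig k
  have hLp : 2 * L ≤ p := by
    have h1 : (p : ℝ) ^ (κ / 2) ≤ (p : ℝ) ^ (1 - κ) :=
      Real.rpow_le_rpow_of_exponent_le hp1 (by linarith)
    have h3 : (2 : ℝ) * L ≤ p := by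
      calc (2 : ℝ) * L ≤ (p : ℝ) ^ (1 - κ) * (p : ℝ) ^ κ :=
            mul_le_mul (hP4'.le.trans h1) hLle hL0.le (by positivity)
        _ = p := by rw [← Real.rpow_add hp0]; norm_num
    exact_mod_cast h3
  have hexc := exc_card (p := p) L k hLp hL1 hk1 hLk ((p : ℝ) ^ (2 * (δ - 4 * e))) (by positivity)
  have hsub : {χ : DirichletCharacter ℂ p | χ ≠ 1 ∧ ∃ A B : Finset (ZMod p), A.Nonempty ∧
        (p : ℝ) ^ δ < (B.card : ℝ) ∧ ((B + B).card : ℝ) ≤ K * B.card ∧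
        ((A + B).card : ℝ) ≤ (p : ℝ) ^ τ * A.card ∧
        ∃ A' : Finset (ZMod p), A' ⊆ A ∧ (A.card : ℝ) ≤ (p : ℝ) ^ τ * A'.card ∧
          (A'.card : ℝ) ^ (2 - τ) ≤ ‖∑ a ∈ A', ∑ b ∈ A', χ (a - b)‖}
      ⊆ {χ : DirichletCharacter ℂ p | (p : ℝ) ^ (2 * (δ - 4 * e))
          < ((Bad L χ ((L : ℝ) ^ (1 - 1 / (2 * (k : ℝ))))).card : ℝ)} := by
    rintro χ ⟨_, A, B, hA, hB, hBK, hAB, A', hA', hAA', hlarge⟩
    rw [Set.mem_ofPred_eq]
    by_contra hcon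
    have h1 := (hP2 p (by omega) χ L hLdef (not_lt.1 hcon) B (by
      rw [show δ - 4 * e + 4 * e = δ by ring]
      exact hB) hBK A hA hAB).2 A' hA' hAA'
    linarith
  have hmono := Set.ncard_le_ncard hsub (Set.toFinite _)
  have hmonoR : ({χ : DirichletCharacter ℂ p | χ ≠ 1 ∧ ∃ A B : Finset (ZMod p), A.Nonempty ∧
        (p : ℝ) ^ δ < (B.card : ℝ) ∧ ((B + B).card : ℝ) ≤ K * B.card ∧
        ((A + B).card : ℝ) ≤ (p : ℝ) ^ τ * A.card ∧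
        ∃ A' : Finset (ZMod p), A' ⊆ A ∧ (A.card : ℝ) ≤ (p : ℝ) ^ τ * A'.card ∧
          (A'.card : ℝ) ^ (2 - τ) ≤ ‖∑ a ∈ A', ∑ b ∈ A', χ (a - b)‖}.ncard : ℝ)
      ≤ ({χ : DirichletCharacter ℂ p | (p : ℝ) ^ (2 * (δ - 4 * e))
          < ((Bad L χ ((L : ℝ) ^ (1 - 1 / (2 * (k : ℝ))))).card : ℝ)}.ncard : ℝ) := by
    exact_mod_cast hmono
  refine hmonoR.trans (hexc.trans ?_)
  rw [div_le_iff₀ (by positivity)]
  have hL2 : (L : ℝ) ^ 2 ≤ (p : ℝ) ^ (2 * κ) := by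
    calc (L : ℝ) ^ 2 ≤ ((p : ℝ) ^ κ) ^ 2 := pow_le_pow_left₀ hL0.le hLle _
      _ = (p : ℝ) ^ (2 * κ) := by
          rw [← Real.rpow_natCast, ← Real.rpow_mul hp0.le]
          congr 1
          push_cast
          ring
  calc (2 * 4 ^ k * (k + (k : ℝ) ^ k)) * p * (L : ℝ) ^ 2
      ≤ (p : ℝ) ^ (ε / 4) * p * (p : ℝ) ^ (2 * κ) := by
        refine mul_le_mul (mul_le_mul_of_nonneg_right hP5'.le hp0.le) hL2 (by positivity)
          (by positivity)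
    _ = (p : ℝ) ^ (ε / 4 + 1 + 2 * κ) := by
        rw [Real.rpow_add hp0, Real.rpow_add hp0, Real.rpow_one]
    _ ≤ (p : ℝ) ^ ((1 - 2 * δ + ε) + 2 * (δ - 4 * e)) :=
        Real.rpow_le_rpow_of_exponent_le hp1 (by linarith)
    _ = (p : ℝ) ^ (1 - 2 * δ + ε) * (p : ℝ) ^ (2 * (δ - 4 * e)) := by rw [Real.rpow_add hp0]

end Pool.Agent.W27.BG
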