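import Pool.Agent.W27.BG.Good
import Pool.Agent.W27.SD.Thick

/-! Few bad shifts, for every nonprincipal character. -/

set_option autoImplicit false

open Finset

namespace Pool.Agent.W27.BG

open Pool.Agent.W27.SD

variable {p : ℕ} [Fact p.Prime]

theorem bad_one (L : ℕ) [NeZero (2 * L)] (hL : 2 * L ≤ p) (χ : DirichletCharacter ℂ p)
    (hχ : χ ≠ 1) (B : ℝ) (hB : 0 ≤ B) (k : ℕ) (hk : 1 ≤ k) :
    ((Bad L χ B).card : ℝ) * B ^ (2 * k)
      ≤ (2 * L : ℝ) * ((k : ℝ) ^ (2 * k) * (2 * L : ℝ) ^ k * p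
        + (2 * k) * (2 * L : ℝ) ^ (2 * k) * Real.sqrt p) := by
  classical
  set s := (Finset.Ioo (-(L : ℤ)) L).image (fun h : ℤ => (h : ZMod p)) with hs
  have hsc : (s.card : ℝ) ≤ 2 * L := by
    have h1 : s.card ≤ 2 * L := by
      refine Finset.card_image_le.trans ?_
      rw [Int.card_Ioo]
      omega
    exact_mod_cast h1
  have h2 : ((Bad L χ B).card : ℝ) * B ^ (2 * k)
      ≤ ∑ W : ZMod p, ∑ σ : ZMod (2 * L), ‖tw L χ W σ‖ ^ (2 * k) := by
    rw [← nsmul_eq_mul, ← Finset.sum_const]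
    have h2 : ∑ W ∈ Bad L χ B, B ^ (2 * k)
        ≤ ∑ W ∈ Bad L χ B, ∑ σ : ZMod (2 * L), ‖tw L χ W σ‖ ^ (2 * k) := by
      refine Finset.sum_le_sum fun W hW => ?_
      obtain ⟨σ, hσ⟩ := mem_Bad.1 hW
      refine (pow_le_pow_left₀ hB hσ.le _).trans ?_
      exact Finset.single_le_sum (f := fun σ => ‖tw L χ W σ‖ ^ (2 * k))
        (fun _ _ => by positivity) (mem_univ σ)
    refine h2.trans (Finset.sum_le_sum_of_subset_of_nonneg (Finset.subset_univ _) ?_)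
    intro _ _ _
    exact Finset.sum_nonneg fun _ _ => by positivity
  refine h2.trans ?_
  rw [Finset.sum_comm]
  have h4 : ∀ σ : ZMod (2 * L), ∑ W : ZMod p, ‖tw L χ W σ‖ ^ (2 * k)
      ≤ (k : ℝ) ^ (2 * k) * (2 * L : ℝ) ^ k * p
        + (2 * k) * (2 * L : ℝ) ^ (2 * k) * Real.sqrt p := by
    intro σ
    have h5 := momF_w χ hχ k hk s (fun z => ps (2 * L) σ z.valMinAbs)
      (fun z => (ps_norm _ _ _).le)
    have h6 : ∑ W : ZMod p, ‖tw L χ W σ‖ ^ (2 * k)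
        = ∑ x : ZMod p, ‖∑ b ∈ s, ps (2 * L) σ b.valMinAbs * χ (x + b)‖ ^ (2 * k) := by
      refine Finset.sum_congr rfl fun W _ => ?_
      rw [tw_eq L hL]
    rw [h6]
    refine h5.trans ?_
    gcongr
  refine (Finset.sum_le_sum fun σ _ => h4 σ).trans ?_
  rw [Finset.sum_const, Finset.card_univ, ZMod.card, nsmul_eq_mul]
  push_cast
  exact le_rfl

end Pool.Agent.W27.BG
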