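import Pool.Agent.W27.BG.Lattice

/-! Ratios of elements of a progression in a given small set. -/

set_option autoImplicit false

open Finset

namespace Pool.Agent.W27.BG

variable {p : ℕ} [Fact p.Prime]

theorem lin_elim {ι : Type*} [Fintype ι] (v v' : ι → ZMod p) (w : ι ⊕ ι → ℤ) :
    lin (Sum.elim v v') w = lin v (fun i => w (Sum.inl i)) + lin v' (fun i => w (Sum.inr i)) := by
  unfold lin
  rw [Fintype.sum_sum_type]
  rfl

theorem lin_smul {ι : Type*} [Fintype ι] (v : ι → ZMod p) (l : ZMod p) (w : ι → ℤ) :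
    lin (fun i => l * v i) w = l * lin v w := by
  unfold lin
  rw [Finset.mul_sum]
  refine Finset.sum_congr rfl fun i _ => ?_
  ring

/-- total number of solutions with ratio in `X`, in a small box -/
theorem small_count {ι : Type*} [Fintype ι] [DecidableEq ι] (v : ι → ZMod p) (Q : ι → ℕ)
    (hprop : ∀ y : ι → ℤ, (∀ i, |y i| ≤ Q i) → lin v y = 0 → y = 0) (X : Finset (ZMod p)) :
    ∑ l ∈ X, ((bx (Sum.elim Q Q)).filter
        (fun w => lin (Sum.elim v (fun i => (-l) * v i)) w = 0)).card
      ≤ X.card + (∏ i, (2 * Q i + 1)) ^ 2 := by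
  classical
  have hswap : ∑ l ∈ X, ((bx (Sum.elim Q Q)).filter
        (fun w => lin (Sum.elim v (fun i => (-l) * v i)) w = 0)).card
      = ∑ w ∈ bx (Sum.elim Q Q), (X.filter
        (fun l => lin (Sum.elim v (fun i => (-l) * v i)) w = 0)).card := by
    simp only [Finset.card_filter]
    rw [Finset.sum_comm]
  rw [hswap]
  have h0 : ∀ w ∈ bx (Sum.elim Q Q), (X.filter
        (fun l => lin (Sum.elim v (fun i => (-l) * v i)) w = 0)).card
      ≤ (if w = 0 then X.card else 0) + 1 := by
    intro w hw
    by_cases hw0 : w = 0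
    · rw [if_pos hw0]
      exact (Finset.card_filter_le _ _).trans (Nat.le_succ _)
    · rw [if_neg hw0, zero_add, Finset.card_le_one]
      intro l hl l' hl'
      rw [Finset.mem_filter] at hl hl'
      have e1 := hl.2
      have e2 := hl'.2
      rw [lin_elim, lin_smul] at e1 e2
      by_contra hne
      have e3 : (l - l') * lin v (fun i => w (Sum.inr i)) = 0 := by linear_combination e2 - e1
      rcases mul_eq_zero.1 e3 with h | h
      · exact hne (sub_eq_zero.1 h)
      · rw [h, mul_zero, add_zero] at e1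
        rw [mem_bx] at hw
        have h1 := hprop _ (fun i => hw (Sum.inl i)) e1
        have h2 := hprop _ (fun i => hw (Sum.inr i)) h
        apply hw0
        funext j
        rcases j with i | i
        · exact congrFun h1 i
        · exact congrFun h2 i
  refine (Finset.sum_le_sum h0).trans ?_
  rw [Finset.sum_add_distrib, Finset.sum_ite_eq']
  refine Nat.add_le_add ?_ ?_
  · split_ifs
    · exact le_rfl
    · exact Nat.zero_le _
  · rw [Finset.sum_const, smul_eq_mul, mul_one, card_bx, Fintype.prod_sum_type]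
    simp only [Sum.elim_inl, Sum.elim_inr]
    rw [sq]

/-- pairs in a box whose ratio (with a translate in the numerator) lies in a given set -/
theorem pair_count {ι : Type*} [Fintype ι] [DecidableEq ι] [Nonempty ι] (v : ι → ZMod p)
    (S Q : ι → ℕ) (hS1 : ∀ i, 1 ≤ S i)
    (hS : (2 * Fintype.card ι).factorial * (∏ i, (2 * S i)) ^ 2 < p) (m : ℕ) (hm : 1 ≤ m)
    (hQ : ∀ i, 6 * Fintype.card ι * S i ≤ m * Q i)
    (hprop : ∀ y : ι → ℤ, (∀ i, |y i| ≤ Q i) → lin v y = 0 → y = 0) (c : ZMod p)
    (X : Finset (ZMod p)) :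
    (((bx S) ×ˢ (bx S)).filter
        (fun q => lin v q.2 ≠ 0 ∧ (c + lin v q.1) / lin v q.2 ∈ X)).card
      ≤ m ^ (2 * Fintype.card ι - 1) * (X.card + (∏ i, (2 * Q i + 1)) ^ 2) := by
  classical
  have hcard : Fintype.card (ι ⊕ ι) = 2 * Fintype.card ι := by
    rw [Fintype.card_sum]; ring
  -- some generator is nonzero
  have hv0 : v ≠ 0 := by
    intro h0
    obtain ⟨i⟩ := (inferInstance : Nonempty ι)
    have hc1 : 1 ≤ Fintype.card ι := Fintype.card_pos
    have hQi : 1 ≤ Q i := by
      by_contra hcon
      have h1 : Q i = 0 := by omega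
      have h2 := hQ i
      rw [h1, mul_zero] at h2
      have h3 := hS1 i
      have h4 : 0 < 6 * Fintype.card ι * S i := by positivity
      omega
    have h1 := hprop (Pi.single i 1) (by
      intro j
      by_cases hj : j = i
      · subst hj; simp; exact_mod_cast hQi
      · rw [Pi.single_eq_of_ne hj]; simp) (by
        unfold lin
        rw [h0]
        simp)
    have h2 := congrFun h1 i
    simp at h2
  have hstep1 : (((bx S) ×ˢ (bx S)).filter
        (fun q => lin v q.2 ≠ 0 ∧ (c + lin v q.1) / lin v q.2 ∈ X)).card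
      ≤ ∑ l ∈ X, ((bx (Sum.elim S S)).filter
        (fun w => lin (Sum.elim v (fun i => (-l) * v i)) w = -c)).card := by
    have h1 : (((bx S) ×ˢ (bx S)).filter
        (fun q => lin v q.2 ≠ 0 ∧ (c + lin v q.1) / lin v q.2 ∈ X)).card
        = ∑ l ∈ X, ((((bx S) ×ˢ (bx S)).filter
        (fun q => lin v q.2 ≠ 0 ∧ (c + lin v q.1) / lin v q.2 ∈ X)).filter
          (fun q => (c + lin v q.1) / lin v q.2 = l)).card :=
      Finset.card_eq_sum_card_fiberwise (fun q hq => (Finset.mem_filter.1 hq).2.2)
    rw [h1]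
    refine Finset.sum_le_sum fun l _ => ?_
    refine Finset.card_le_card_of_injOn (fun q => Sum.elim q.1 q.2) ?_ ?_
    · intro q hq
      rw [Finset.mem_coe, Finset.mem_filter, Finset.mem_filter, Finset.mem_product, mem_bx,
        mem_bx] at hq
      obtain ⟨⟨⟨hq1, hq2⟩, hq3, _⟩, hq4⟩ := hq
      rw [Finset.mem_coe, Finset.mem_filter, mem_bx]
      refine ⟨?_, ?_⟩
      · rintro (i | i)
        · exact hq1 i
        · exact hq2 i
      · rw [lin_elim, lin_smul]
        simp only [Sum.elim_inl, Sum.elim_inr]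
        rw [div_eq_iff hq3] at hq4
        linear_combination hq4
    · intro q _ q' _ hqq
      simp only at hqq
      refine Prod.ext ?_ ?_
      · funext i
        exact congrFun hqq (Sum.inl i)
      · funext i
        exact congrFun hqq (Sum.inr i)
  refine hstep1.trans ?_
  have hstep2 : ∀ l ∈ X, ((bx (Sum.elim S S)).filter
        (fun w => lin (Sum.elim v (fun i => (-l) * v i)) w = -c)).card
      ≤ ((bx (Sum.elim Q Q)).filter
        (fun w => lin (Sum.elim v (fun i => (-l) * v i)) w = 0)).card
          * m ^ (2 * Fintype.card ι - 1) := by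
    intro l _
    have h := count_cells (Sum.elim v (fun i => (-l) * v i)) ?_ (Sum.elim S S) (Sum.elim Q Q) ?_ ?_
      (-c) m hm ?_
    · rwa [hcard] at h
    · intro h0
      apply hv0
      funext i
      exact congrFun h0 (Sum.inl i)
    · rintro (i | i) <;> exact hS1 i
    · rw [hcard, Fintype.prod_sum_type]
      simp only [Sum.elim_inl, Sum.elim_inr]
      rw [← sq]
      exact hS
    · rw [hcard]
      rintro (i | i) <;>
      · simp only [Sum.elim_inl, Sum.elim_inr]
        calc 3 * (2 * Fintype.card ι) * S i = 6 * Fintype.card ι * S i := by ring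
          _ ≤ _ := hQ i
  refine (Finset.sum_le_sum hstep2).trans ?_
  rw [← Finset.sum_mul, mul_comm]
  exact Nat.mul_le_mul_left _ (small_count v Q hprop X)

end Pool.Agent.W27.BG
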