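import Pool.Agent.W27.BG.GapBound
import Pool.Agent.W27.SD.Gap

/-! Bilinear forms with kernel `χ (a - b)` on sets of small doubling. -/

set_option autoImplicit false

open Finset
open scoped Pointwise

namespace Pool.Agent.W27.BG

open Pool.Agent.W27.SD

/-- covering by few translates of a proper progression -/
theorem gap_all {K : ℝ} (hK1 : 1 ≤ K) : ∃ (C : ℝ) (D : ℕ), 1 ≤ C ∧ 1 ≤ D ∧
    ∀ (p : ℕ) [Fact p.Prime], 3 ≤ p → ∀ A : Finset (ZMod p), A.Nonempty →
      ((A + A).card : ℝ) ≤ K * A.card →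
      ∃ (k : ℕ) (v : Fin k → ZMod p) (R : Fin k → ℕ) (T : Finset (ZMod p)), k ≤ D ∧
        (∀ y : Fin k → ℤ, (∀ i, |y i| ≤ R i) → lin v y = 0 → y = 0) ∧
        (∏ i, (2 * (R i : ℝ) + 1)) ≤ C * A.card ∧ (T.card : ℝ) ≤ C ∧
        ∀ a ∈ A, ∃ t ∈ T, ∃ c : Fin k → ℤ, (∀ i, |c i| ≤ R i) ∧ a = t + lin v c := by
  classical
  have hC1 := CK_ge_one hK1
  refine ⟨CK K, ⌊300 * Real.log (2 * K)⌋₊ + 1, hC1, by omega, ?_⟩
  intro p _ hp3 A hA hK
  rcases gap_zmod hA hK hK1 with hbig | ⟨k, v, N, T, hk, hprop, hvol, hT, hcov⟩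
  · refine ⟨1, fun _ => 1, fun _ => (p - 1) / 2, {0}, by omega, ?_, ?_, ?_, ?_⟩
    · intro y hy hy0
      have h1 : lin (fun _ : Fin 1 => (1 : ZMod p)) y = ((y 0 : ℤ) : ZMod p) := by
        unfold lin
        simp
      rw [h1, ZMod.intCast_zmod_eq_zero_iff_dvd] at hy0
      have h2 := hy 0
      have h3 : |y 0| < (p : ℤ) := by
        refine lt_of_le_of_lt h2 ?_
        have : (p - 1) / 2 < p := by omega
        exact_mod_cast this
      have h4 := Int.eq_zero_of_abs_lt_dvd hy0 h3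
      funext i
      have : i = 0 := Subsingleton.elim _ _
      rw [this, h4]
      rfl
    · have h1 : (2 * ((p - 1) / 2) + 1 : ℕ) ≤ p := by omega
      have h2 : (2 * (((p - 1) / 2 : ℕ) : ℝ) + 1) ≤ p := by exact_mod_cast h1
      simpa using h2.trans hbig
    · simp only [Finset.card_singleton]
      push_cast
      exact hC1
    · intro a _
      refine ⟨0, by simp, fun _ => a.valMinAbs, ?_, ?_⟩
      · intro i
        have h1 := ZMod.natAbs_valMinAbs_le a
        have hodd : p % 2 = 1 := by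
          rcases (Fact.out : p.Prime).eq_two_or_odd with h | h
          · omega
          · exact h
        have h2 : p / 2 = (p - 1) / 2 := by omega
        rw [h2] at h1
        rw [Int.abs_eq_natAbs]
        exact_mod_cast h1
      · unfold lin
        simp
  · refine ⟨k, v, N, T, ?_, ?_, ?_, hT, ?_⟩
    · have := Nat.le_floor hk
      omega
    · intro y hy hy0
      refine hprop y 0 hy (by intro i; simp) ?_
      rw [show ∑ i, y i • v i = lin v y from ?_, hy0]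
      · simp
      · unfold lin
        refine Finset.sum_congr rfl fun i _ => ?_
        rw [zsmul_eq_mul]
    · have h1 : ∏ i, (2 * (N i : ℝ) + 1) ≤ A.card := by exact_mod_cast hvol
      exact h1.trans (le_mul_of_one_le_left (Nat.cast_nonneg _) hC1)
    · intro a ha
      obtain ⟨t, ht, c, hc, e⟩ := hcov a ha
      refine ⟨t, ht, c, hc, ?_⟩
      rw [e]
      congr 1
      unfold lin
      refine Finset.sum_congr rfl fun i _ => ?_
      rw [zsmul_eq_mul]

/-- truncating the sides so that the volume is about `X` -/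
theorem trunc_exists {ι : Type} [Fintype ι] (R : ι → ℕ) (hR : ∀ i, 1 ≤ R i) (X : ℝ) (hX : 1 < X)
    (hXR : X ≤ ∏ i, (R i : ℝ)) :
    ∃ s : ℕ, 1 ≤ s ∧ X ≤ ∏ i, ((min (R i) s : ℕ) : ℝ) ∧
      ∏ i, ((min (R i) s : ℕ) : ℝ) ≤ 2 ^ Fintype.card ι * X := by
  classical
  have hex : ∃ s : ℕ, X ≤ ∏ i, ((min (R i) s : ℕ) : ℝ) := by
    refine ⟨∑ i, R i, ?_⟩
    have h1 : ∀ i, min (R i) (∑ i, R i) = R i := fun i =>
      min_eq_left (Finset.single_le_sum (fun _ _ => Nat.zero_le _) (Finset.mem_univ i))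
    simp only [h1]
    exact hXR
  have hne : Nonempty ι := by
    by_contra hcon
    rw [not_nonempty_iff] at hcon
    simp at hXR
    linarith
  have hs := Nat.find_spec hex
  set s := Nat.find hex with hsdef
  have hs2 : 2 ≤ s := by
    by_contra hcon
    have h1 : s ≤ 1 := by omega
    have h2 : ∏ i, ((min (R i) s : ℕ) : ℝ) ≤ 1 := by
      refine Finset.prod_le_one (fun _ _ => by positivity) (fun i _ => ?_)
      exact_mod_cast (min_le_right _ _).trans h1
    linarith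
  refine ⟨s, by omega, hs, ?_⟩
  have hlt : ∏ i, ((min (R i) (s - 1) : ℕ) : ℝ) < X := by
    have := Nat.find_min hex (show s - 1 < Nat.find hex by rw [← hsdef]; omega)
    exact not_le.1 this
  calc ∏ i, ((min (R i) s : ℕ) : ℝ) ≤ ∏ i, (2 * ((min (R i) (s - 1) : ℕ) : ℝ)) := by
        refine Finset.prod_le_prod (fun _ _ => by positivity) (fun i _ => ?_)
        have h1 := hR i
        have h2 : min (R i) s ≤ 2 * min (R i) (s - 1) := by
          rcases le_total (R i) (s - 1) with h | h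
          · rw [min_eq_left h, min_eq_left (by omega)]; omega
          · rw [min_eq_right h]
            have := min_le_right (R i) s
            omega
        exact_mod_cast h2
    _ = 2 ^ Fintype.card ι * ∏ i, ((min (R i) (s - 1) : ℕ) : ℝ) := by
        rw [Finset.prod_mul_distrib, Finset.prod_const, Finset.card_univ]
    _ ≤ _ := mul_le_mul_of_nonneg_left hlt.le (by positivity)

/-- from the arithmetic mean to the geometric mean -/
theorem amgm_form {α : Type*} (B : Finset α) (κ : α → α → ℂ) (M : ℝ) (hM : 0 ≤ M)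
    (h : ∀ f g : α → ℂ, ‖∑ a ∈ B, ∑ b ∈ B, f a * g b * κ a b‖
      ≤ M * ((∑ a ∈ B, ‖f a‖ ^ 2 + ∑ b ∈ B, ‖g b‖ ^ 2) / 2)) (f g : α → ℂ) :
    ‖∑ a ∈ B, ∑ b ∈ B, f a * g b * κ a b‖
      ≤ M * (Real.sqrt (∑ a ∈ B, ‖f a‖ ^ 2) * Real.sqrt (∑ b ∈ B, ‖g b‖ ^ 2)) := by
  set F := ∑ a ∈ B, ‖f a‖ ^ 2 with hF
  set G := ∑ b ∈ B, ‖g b‖ ^ 2 with hG
  have hF0 : 0 ≤ F := Finset.sum_nonneg fun _ _ => by positivity
  have hG0 : 0 ≤ G := Finset.sum_nonneg fun _ _ => by positivity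
  rcases hF0.eq_or_lt with h0 | hFpos
  · have h1 : ∀ a ∈ B, f a = 0 := by
      intro a ha
      have := (Finset.sum_eq_zero_iff_of_nonneg (fun _ _ => by positivity)).1 h0.symm a ha
      simpa using this
    have h2 : ∑ a ∈ B, ∑ b ∈ B, f a * g b * κ a b = 0 := by
      refine Finset.sum_eq_zero fun a ha => Finset.sum_eq_zero fun b _ => ?_
      rw [h1 a ha]; ring
    rw [h2, norm_zero]
    positivity
  rcases hG0.eq_or_lt with h0 | hGpos
  · have h1 : ∀ a ∈ B, g a = 0 := by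
      intro a ha
      have := (Finset.sum_eq_zero_iff_of_nonneg (fun _ _ => by positivity)).1 h0.symm a ha
      simpa using this
    have h2 : ∑ a ∈ B, ∑ b ∈ B, f a * g b * κ a b = 0 := by
      refine Finset.sum_eq_zero fun a _ => Finset.sum_eq_zero fun b hb => ?_
      rw [h1 b hb]; ring
    rw [h2, norm_zero]
    positivity
  have hsF : 0 < Real.sqrt F := Real.sqrt_pos.2 hFpos
  have hsG : 0 < Real.sqrt G := Real.sqrt_pos.2 hGpos
  have hFF : Real.sqrt F ^ 2 = F := Real.sq_sqrt hF0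
  have hGG : Real.sqrt G ^ 2 = G := Real.sq_sqrt hG0
  -- normalise
  have h1 := h (fun a => ((Real.sqrt F)⁻¹ : ℝ) * f a) (fun b => ((Real.sqrt G)⁻¹ : ℝ) * g b)
  have e1 : ∑ a ∈ B, ∑ b ∈ B, (((Real.sqrt F)⁻¹ : ℝ) * f a) * (((Real.sqrt G)⁻¹ : ℝ) * g b) * κ a b
      = (((Real.sqrt F)⁻¹ * (Real.sqrt G)⁻¹ : ℝ) : ℂ) * ∑ a ∈ B, ∑ b ∈ B, f a * g b * κ a b := by
    rw [Finset.mul_sum]
    refine Finset.sum_congr rfl fun a _ => ?_
    rw [Finset.mul_sum]
    refine Finset.sum_congr rfl fun b _ => ?_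
    push_cast
    ring
  have e2 : ∑ a ∈ B, ‖(((Real.sqrt F)⁻¹ : ℝ) : ℂ) * f a‖ ^ 2 = 1 := by
    have : ∀ a ∈ B, ‖(((Real.sqrt F)⁻¹ : ℝ) : ℂ) * f a‖ ^ 2 = F⁻¹ * ‖f a‖ ^ 2 := by
      intro a _
      rw [norm_mul, Complex.norm_real, Real.norm_of_nonneg (by positivity), mul_pow, inv_pow, hFF]
    rw [Finset.sum_congr rfl this, ← Finset.mul_sum, ← hF]
    exact inv_mul_cancel₀ hFpos.ne'
  have e3 : ∑ a ∈ B, ‖(((Real.sqrt G)⁻¹ : ℝ) : ℂ) * g a‖ ^ 2 = 1 := by
    have : ∀ a ∈ B, ‖(((Real.sqrt G)⁻¹ : ℝ) : ℂ) * g a‖ ^ 2 = G⁻¹ * ‖g a‖ ^ 2 := by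
      intro a _
      rw [norm_mul, Complex.norm_real, Real.norm_of_nonneg (by positivity), mul_pow, inv_pow, hGG]
    rw [Finset.sum_congr rfl this, ← Finset.mul_sum, ← hG]
    exact inv_mul_cancel₀ hGpos.ne'
  rw [e1, e2, e3, norm_mul, Complex.norm_real, Real.norm_of_nonneg (by positivity)] at h1
  have h2 : ((1 : ℝ) + 1) / 2 = 1 := by norm_num
  rw [h2, mul_one] at h1
  have h3 : (Real.sqrt F)⁻¹ * (Real.sqrt G)⁻¹ = (Real.sqrt F * Real.sqrt G)⁻¹ := by
    rw [mul_inv]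
  rw [h3, inv_mul_le_iff₀ (by positivity)] at h1
  linarith

end Pool.Agent.W27.BG
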