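import Pool.Agent.W27.BG.ToeplitzW
import Pool.Agent.W27.SD.Thick

/-! Bilinear forms with kernel `χ (a - b)` on sets that are stable under a few shifts. -/

set_option autoImplicit false

open Finset

namespace Pool.Agent.W27.BG

open Pool.Agent.W27.SD

variable {p : ℕ} [Fact p.Prime]

/-- rewriting a sum over `A` after a shift -/
theorem sum_shift (A U : Finset (ZMod p)) (s : ZMod p) (h : ∀ a ∈ A, a - s ∈ U)
    {M : Type*} [AddCommMonoid M] (F : ZMod p → M) :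
    ∑ a ∈ A, F a = ∑ t ∈ U, if t + s ∈ A then F (t + s) else 0 := by
  classical
  rw [← Finset.sum_filter]
  refine Finset.sum_bij (fun a _ => a - s) ?_ ?_ ?_ ?_
  · intro a ha
    rw [Finset.mem_filter]
    refine ⟨h a ha, ?_⟩
    rw [sub_add_cancel]
    exact ha
  · intro a _ b _ hab
    exact sub_left_injective hab
  · intro t ht
    rw [Finset.mem_filter] at ht
    exact ⟨t + s, ht.2, by rw [add_sub_cancel_right]⟩
  · intro a _
    rw [sub_add_cancel]

theorem shift_bound (L : ℕ) [NeZero (2 * L)] (χ : DirichletCharacter ℂ p) (B : ℝ) (hB : 0 ≤ B)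
    (z : ZMod p) (hz : z ≠ 0) (A₁ A₂ U₁ U₂ : Finset (ZMod p)) (f g : ZMod p → ℂ)
    (h1 : ∀ a ∈ A₁, ∀ i : ℤ, 0 ≤ i → i < L → a - (i : ZMod p) * z ∈ U₁)
    (h2 : ∀ a ∈ A₂, ∀ i : ℤ, 0 ≤ i → i < L → a - (i : ZMod p) * z ∈ U₂)
    (u R : ℝ) (hu1 : (U₁.card : ℝ) ≤ u) (hu2 : (U₂.card : ℝ) ≤ u)
    (hR1 : ∀ t ∈ U₁, ((U₂.filter (fun t' => (t - t') * z⁻¹ ∈ Bad L χ B)).card : ℝ) ≤ R)
    (hR2 : ∀ t' ∈ U₂, ((U₁.filter (fun t => (t - t') * z⁻¹ ∈ Bad L χ B)).card : ℝ) ≤ R) :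
    ‖∑ a ∈ A₁, ∑ b ∈ A₂, f a * g b * χ (a - b)‖
      ≤ (B / L * u + R) * ((∑ a ∈ A₁, ‖f a‖ ^ 2 + ∑ b ∈ A₂, ‖g b‖ ^ 2) / 2) := by
  classical
  have hL0 : 0 < L := by
    rcases Nat.eq_zero_or_pos L with h | h
    · exfalso
      subst h
      exact NeZero.ne (2 * 0) rfl
    · exact h
  have hLR : (0 : ℝ) < L := by exact_mod_cast hL0
  set I := Finset.Ico 0 (L : ℤ) with hI
  have hIcard : (I.card : ℝ) = L := by
    rw [hI, Int.card_Ico]; simp
  set F : ZMod p → ℂ := fun a => if a ∈ A₁ then f a else 0 with hF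
  set G : ZMod p → ℂ := fun a => if a ∈ A₂ then g a else 0 with hG
  set α : ZMod p → ℝ := fun t => ∑ i ∈ I, ‖F (t + (i : ZMod p) * z)‖ ^ 2 with hα
  set β : ZMod p → ℝ := fun t => ∑ i ∈ I, ‖G (t + (i : ZMod p) * z)‖ ^ 2 with hβ
  have hα0 : ∀ t, 0 ≤ α t := fun t => Finset.sum_nonneg fun _ _ => by positivity
  have hβ0 : ∀ t, 0 ≤ β t := fun t => Finset.sum_nonneg fun _ _ => by positivity
  -- total masses
  have hαsum : ∑ t ∈ U₁, α t = L * ∑ a ∈ A₁, ‖f a‖ ^ 2 := by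
    have e1 : ∀ i ∈ I, ∑ t ∈ U₁, ‖F (t + (i : ZMod p) * z)‖ ^ 2 = ∑ a ∈ A₁, ‖f a‖ ^ 2 := by
      intro i hi
      have hi' := Finset.mem_Ico.1 hi
      rw [sum_shift A₁ U₁ ((i : ZMod p) * z) (fun a ha => h1 a ha i hi'.1 hi'.2)
        (fun a => ‖f a‖ ^ 2)]
      refine Finset.sum_congr rfl fun t _ => ?_
      simp only [hF]
      split_ifs <;> simp
    simp only [hα]
    rw [Finset.sum_comm, Finset.sum_congr rfl e1, Finset.sum_const, nsmul_eq_mul, hIcard]
  have hβsum : ∑ t ∈ U₂, β t = L * ∑ a ∈ A₂, ‖g a‖ ^ 2 := by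
    have e1 : ∀ i ∈ I, ∑ t ∈ U₂, ‖G (t + (i : ZMod p) * z)‖ ^ 2 = ∑ a ∈ A₂, ‖g a‖ ^ 2 := by
      intro i hi
      have hi' := Finset.mem_Ico.1 hi
      rw [sum_shift A₂ U₂ ((i : ZMod p) * z) (fun a ha => h2 a ha i hi'.1 hi'.2)
        (fun a => ‖g a‖ ^ 2)]
      refine Finset.sum_congr rfl fun t _ => ?_
      simp only [hG]
      split_ifs <;> simp
    simp only [hβ]
    rw [Finset.sum_comm, Finset.sum_congr rfl e1, Finset.sum_const, nsmul_eq_mul, hIcard]
  -- the averaged identity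
  have key : (L : ℂ) ^ 2 * ∑ a ∈ A₁, ∑ b ∈ A₂, f a * g b * χ (a - b)
      = ∑ t ∈ U₁, ∑ t' ∈ U₂, χ z * ∑ i ∈ I, ∑ j ∈ I,
        F (t + (i : ZMod p) * z) * G (t' + (j : ZMod p) * z)
          * χ ((t - t') * z⁻¹ + ((i - j : ℤ) : ZMod p)) := by
    have e1 : ∀ i ∈ I, ∀ j ∈ I, ∑ a ∈ A₁, ∑ b ∈ A₂, f a * g b * χ (a - b)
        = ∑ t ∈ U₁, ∑ t' ∈ U₂, F (t + (i : ZMod p) * z) * G (t' + (j : ZMod p) * z)
          * (χ z * χ ((t - t') * z⁻¹ + ((i - j : ℤ) : ZMod p))) := by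
      intro i hi j hj
      have hi' := Finset.mem_Ico.1 hi
      have hj' := Finset.mem_Ico.1 hj
      rw [sum_shift A₁ U₁ ((i : ZMod p) * z) (fun a ha => h1 a ha i hi'.1 hi'.2)]
      refine Finset.sum_congr rfl fun t _ => ?_
      by_cases ht : t + (i : ZMod p) * z ∈ A₁
      · rw [if_pos ht, sum_shift A₂ U₂ ((j : ZMod p) * z) (fun a ha => h2 a ha j hj'.1 hj'.2)]
        refine Finset.sum_congr rfl fun t' _ => ?_
        simp only [hF, hG]
        rw [if_pos ht]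
        by_cases ht' : t' + (j : ZMod p) * z ∈ A₂
        · rw [if_pos ht', if_pos ht', ← map_mul]
          congr 2
          push_cast
          field_simp
          ring
        · rw [if_neg ht', if_neg ht', mul_zero, zero_mul]
      · rw [if_neg ht]
        symm
        refine Finset.sum_eq_zero fun t' _ => ?_
        simp only [hF]
        rw [if_neg ht, zero_mul, zero_mul]
    have e2 : (L : ℂ) ^ 2 * ∑ a ∈ A₁, ∑ b ∈ A₂, f a * g b * χ (a - b)
        = ∑ i ∈ I, ∑ j ∈ I, ∑ a ∈ A₁, ∑ b ∈ A₂, f a * g b * χ (a - b) := by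
      have hIc : (I.card : ℂ) = L := by exact_mod_cast hIcard
      rw [Finset.sum_const, Finset.sum_const, nsmul_eq_mul, nsmul_eq_mul, hIc]
      ring
    rw [e2, Finset.sum_congr rfl fun i hi => Finset.sum_congr rfl fun j hj => e1 i hi j hj]
    -- reorder
    have e3 : ∑ i ∈ I, ∑ j ∈ I, ∑ t ∈ U₁, ∑ t' ∈ U₂,
        F (t + (i : ZMod p) * z) * G (t' + (j : ZMod p) * z)
          * (χ z * χ ((t - t') * z⁻¹ + ((i - j : ℤ) : ZMod p)))
        = ∑ t ∈ U₁, ∑ t' ∈ U₂, ∑ i ∈ I, ∑ j ∈ I,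
          F (t + (i : ZMod p) * z) * G (t' + (j : ZMod p) * z)
          * (χ z * χ ((t - t') * z⁻¹ + ((i - j : ℤ) : ZMod p))) := by
      calc _ = ∑ i ∈ I, ∑ t ∈ U₁, ∑ j ∈ I, ∑ t' ∈ U₂,
          F (t + (i : ZMod p) * z) * G (t' + (j : ZMod p) * z)
          * (χ z * χ ((t - t') * z⁻¹ + ((i - j : ℤ) : ZMod p))) :=
            Finset.sum_congr rfl fun i _ => Finset.sum_comm
        _ = ∑ t ∈ U₁, ∑ i ∈ I, ∑ j ∈ I, ∑ t' ∈ U₂,
          F (t + (i : ZMod p) * z) * G (t' + (j : ZMod p) * z)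
          * (χ z * χ ((t - t') * z⁻¹ + ((i - j : ℤ) : ZMod p))) := Finset.sum_comm
        _ = ∑ t ∈ U₁, ∑ i ∈ I, ∑ t' ∈ U₂, ∑ j ∈ I,
          F (t + (i : ZMod p) * z) * G (t' + (j : ZMod p) * z)
          * (χ z * χ ((t - t') * z⁻¹ + ((i - j : ℤ) : ZMod p))) :=
            Finset.sum_congr rfl fun t _ => Finset.sum_congr rfl fun i _ => Finset.sum_comm
        _ = _ := Finset.sum_congr rfl fun t _ => Finset.sum_comm
    rw [e3]
    refine Finset.sum_congr rfl fun t _ => Finset.sum_congr rfl fun t' _ => ?_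
    rw [Finset.mul_sum]
    refine Finset.sum_congr rfl fun i _ => ?_
    rw [Finset.mul_sum]
    refine Finset.sum_congr rfl fun j _ => ?_
    ring
  -- bound of one term
  have hterm : ∀ t t', ‖χ z * ∑ i ∈ I, ∑ j ∈ I,
        F (t + (i : ZMod p) * z) * G (t' + (j : ZMod p) * z)
          * χ ((t - t') * z⁻¹ + ((i - j : ℤ) : ZMod p))‖
      ≤ B * ((α t + β t') / 2)
        + (if (t - t') * z⁻¹ ∈ Bad L χ B then (L : ℝ) * ((α t + β t') / 2) else 0) := by
    intro t t'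
    rw [norm_mul]
    refine (mul_le_of_le_one_left (norm_nonneg _) (DirichletCharacter.norm_le_one χ z)).trans ?_
    split_ifs with hb
    · have h3 : ‖∑ i ∈ I, ∑ j ∈ I, F (t + (i : ZMod p) * z) * G (t' + (j : ZMod p) * z)
          * χ ((t - t') * z⁻¹ + ((i - j : ℤ) : ZMod p))‖ ≤ (L : ℝ) * ((α t + β t') / 2) := by
        refine (norm_sum_le _ _).trans ?_
        have h4 : ∀ i ∈ I, ‖∑ j ∈ I, F (t + (i : ZMod p) * z) * G (t' + (j : ZMod p) * z)
          * χ ((t - t') * z⁻¹ + ((i - j : ℤ) : ZMod p))‖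
            ≤ ∑ j ∈ I, (‖F (t + (i : ZMod p) * z)‖ ^ 2 + ‖G (t' + (j : ZMod p) * z)‖ ^ 2) / 2 := by
          intro i _
          refine (norm_sum_le _ _).trans (Finset.sum_le_sum fun j _ => ?_)
          rw [norm_mul, norm_mul]
          refine (mul_le_of_le_one_right (by positivity)
            (DirichletCharacter.norm_le_one χ _)).trans ?_
          nlinarith [sq_nonneg (‖F (t + (i : ZMod p) * z)‖ - ‖G (t' + (j : ZMod p) * z)‖)]
        refine (Finset.sum_le_sum h4).trans (le_of_eq ?_)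
        simp only [hα, hβ]
        have h5 : ∀ i ∈ I, ∑ j ∈ I,
            (‖F (t + (i : ZMod p) * z)‖ ^ 2 + ‖G (t' + (j : ZMod p) * z)‖ ^ 2) / 2
            = (L * ‖F (t + (i : ZMod p) * z)‖ ^ 2
              + ∑ j ∈ I, ‖G (t' + (j : ZMod p) * z)‖ ^ 2) / 2 := by
          intro i _
          rw [← Finset.sum_div, Finset.sum_add_distrib, Finset.sum_const, nsmul_eq_mul, hIcard]
        rw [Finset.sum_congr rfl h5, ← Finset.sum_div, Finset.sum_add_distrib, Finset.sum_const,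
          nsmul_eq_mul, hIcard, ← Finset.mul_sum]
        ring
      have h6 : 0 ≤ B * ((α t + β t') / 2) := by
        have := hα0 t
        have := hβ0 t'
        positivity
      linarith
    · rw [add_zero]
      have hgood : ∀ σ : ZMod (2 * L), ‖tw L χ ((t - t') * z⁻¹) σ‖ ≤ B := by
        intro σ
        by_contra hcon
        exact hb (mem_Bad.2 ⟨σ, not_le.1 hcon⟩)
      exact toeplitz_w L (fun h : ℤ => χ ((t - t') * z⁻¹ + (h : ZMod p))) B hB hgood
        (fun i => F (t + (i : ZMod p) * z)) (fun j => G (t' + (j : ZMod p) * z))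
  -- summation
  set fs := ∑ a ∈ A₁, ‖f a‖ ^ 2 with hfs
  set gs := ∑ b ∈ A₂, ‖g b‖ ^ 2 with hgs
  have hfs0 : 0 ≤ fs := Finset.sum_nonneg fun _ _ => by positivity
  have hgs0 : 0 ≤ gs := Finset.sum_nonneg fun _ _ => by positivity
  have hsum : (L : ℝ) ^ 2 * ‖∑ a ∈ A₁, ∑ b ∈ A₂, f a * g b * χ (a - b)‖
      ≤ (L : ℝ) ^ 2 * ((B / L * u + R) * ((fs + gs) / 2)) := by
    have h3 : (L : ℝ) ^ 2 * ‖∑ a ∈ A₁, ∑ b ∈ A₂, f a * g b * χ (a - b)‖
        = ‖(L : ℂ) ^ 2 * ∑ a ∈ A₁, ∑ b ∈ A₂, f a * g b * χ (a - b)‖ := by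
      rw [norm_mul, norm_pow, Complex.norm_natCast]
    rw [h3, key]
    refine (norm_sum_le _ _).trans ?_
    refine (Finset.sum_le_sum fun t _ => norm_sum_le _ _).trans ?_
    refine (Finset.sum_le_sum fun t _ => Finset.sum_le_sum fun t' _ => hterm t t').trans ?_
    have h4 : ∑ t ∈ U₁, ∑ t' ∈ U₂, (B * ((α t + β t') / 2)
        + (if (t - t') * z⁻¹ ∈ Bad L χ B then (L : ℝ) * ((α t + β t') / 2) else 0))
        = ∑ t ∈ U₁, ∑ t' ∈ U₂, B * ((α t + β t') / 2)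
          + (∑ t ∈ U₁, ∑ t' ∈ U₂,
              (if (t - t') * z⁻¹ ∈ Bad L χ B then (L : ℝ) / 2 * α t else 0)
            + ∑ t' ∈ U₂, ∑ t ∈ U₁,
              (if (t - t') * z⁻¹ ∈ Bad L χ B then (L : ℝ) / 2 * β t' else 0)) := by
      rw [Finset.sum_comm (s := U₂) (t := U₁), ← Finset.sum_add_distrib, ← Finset.sum_add_distrib]
      refine Finset.sum_congr rfl fun t _ => ?_
      rw [← Finset.sum_add_distrib, ← Finset.sum_add_distrib]
      refine Finset.sum_congr rfl fun t' _ => ?_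
      split_ifs
      · ring
      · ring
    rw [h4]
    have h5 : ∑ t ∈ U₁, ∑ t' ∈ U₂, B * ((α t + β t') / 2)
        ≤ B * u * L * ((fs + gs) / 2) := by
      have h6 : ∑ t ∈ U₁, ∑ t' ∈ U₂, B * ((α t + β t') / 2)
          = B / 2 * (U₂.card * (L * fs) + U₁.card * (L * gs)) := by
        have h7 : ∀ t ∈ U₁, ∑ t' ∈ U₂, B * ((α t + β t') / 2)
            = B / 2 * (U₂.card * α t + L * gs) := by
          intro t _
          rw [← Finset.mul_sum, ← Finset.sum_div, Finset.sum_add_distrib, hβsum, Finset.sum_const,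
            nsmul_eq_mul]
          ring
        rw [Finset.sum_congr rfl h7, ← Finset.mul_sum, Finset.sum_add_distrib, ← Finset.mul_sum,
          hαsum, Finset.sum_const, nsmul_eq_mul]
      rw [h6]
      have h8 : (U₂.card : ℝ) * (L * fs) ≤ u * (L * fs) :=
        mul_le_mul_of_nonneg_right hu2 (by positivity)
      have h9 : (U₁.card : ℝ) * (L * gs) ≤ u * (L * gs) :=
        mul_le_mul_of_nonneg_right hu1 (by positivity)
      calc B / 2 * (U₂.card * (L * fs) + U₁.card * (L * gs))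
          ≤ B / 2 * (u * (L * fs) + u * (L * gs)) :=
            mul_le_mul_of_nonneg_left (by linarith) (by positivity)
        _ = _ := by ring
    have h10 : ∑ t ∈ U₁, ∑ t' ∈ U₂,
        (if (t - t') * z⁻¹ ∈ Bad L χ B then (L : ℝ) / 2 * α t else 0) ≤ L / 2 * R * (L * fs) := by
      rw [← hαsum, Finset.mul_sum]
      refine Finset.sum_le_sum fun t ht => ?_
      rw [← Finset.sum_filter, Finset.sum_const, nsmul_eq_mul]
      have h11 : (0 : ℝ) ≤ L / 2 * α t := mul_nonneg (by positivity) (hα0 t)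
      calc _ ≤ R * ((L : ℝ) / 2 * α t) := mul_le_mul_of_nonneg_right (hR1 t ht) h11
        _ = _ := by ring
    have h12 : ∑ t' ∈ U₂, ∑ t ∈ U₁,
        (if (t - t') * z⁻¹ ∈ Bad L χ B then (L : ℝ) / 2 * β t' else 0) ≤ L / 2 * R * (L * gs) := by
      rw [← hβsum, Finset.mul_sum]
      refine Finset.sum_le_sum fun t' ht' => ?_
      rw [← Finset.sum_filter, Finset.sum_const, nsmul_eq_mul]
      have h11 : (0 : ℝ) ≤ L / 2 * β t' := mul_nonneg (by positivity) (hβ0 t')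
      calc _ ≤ R * ((L : ℝ) / 2 * β t') := mul_le_mul_of_nonneg_right (hR2 t' ht') h11
        _ = _ := by ring
    calc _ ≤ B * u * L * ((fs + gs) / 2) + (L / 2 * R * (L * fs) + L / 2 * R * (L * gs)) :=
          add_le_add h5 (add_le_add h10 h12)
      _ = _ := by
          field_simp
  exact le_of_mul_le_mul_left hsum (by positivity)

end Pool.Agent.W27.BG
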