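import Pool.Agent.W27.BG.Count
import Pool.Agent.W27.BG.BadOne
import Pool.Agent.W27.BG.Shift

/-! Bilinear forms with kernel `χ (a - b)` on translates of one progression. -/

set_option autoImplicit false

open Finset

namespace Pool.Agent.W27.BG

open Pool.Agent.W27.SD

variable {p : ℕ} [Fact p.Prime]

theorem lin_add {ι : Type*} [Fintype ι] (u : ι → ZMod p) (w w' : ι → ℤ) :
    lin u (w + w') = lin u w + lin u w' := by
  unfold lin
  rw [← Finset.sum_add_distrib]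
  refine Finset.sum_congr rfl fun j _ => ?_
  rw [Pi.add_apply]
  push_cast
  ring

theorem lin_zsmul {ι : Type*} [Fintype ι] (u : ι → ZMod p) (l : ℤ) (w : ι → ℤ) :
    lin u (l • w) = (l : ZMod p) * lin u w := by
  unfold lin
  rw [Finset.mul_sum]
  refine Finset.sum_congr rfl fun i _ => ?_
  rw [Pi.smul_apply, smul_eq_mul]
  push_cast
  ring

/-- there is a shift in the progression for which few differences are bad -/
theorem exists_good {ι : Type*} [Fintype ι] [DecidableEq ι] [Nonempty ι] (v : ι → ZMod p)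
    (S Q M : ι → ℕ) (hS1 : ∀ i, 1 ≤ S i)
    (hS : (2 * Fintype.card ι).factorial * (∏ i, (2 * S i)) ^ 2 < p) (m : ℕ) (hm : 1 ≤ m)
    (hQ : ∀ i, 6 * Fintype.card ι * S i ≤ m * Q i)
    (hprop : ∀ y : ι → ℤ, (∀ i, |y i| ≤ Q i) → lin v y = 0 → y = 0) (c : ZMod p)
    (X : Finset (ZMod p)) (hM1 : ∀ i, 1 ≤ M i)
    (hpropM : ∀ y : ι → ℤ, (∀ i, |y i| ≤ M i) → lin v y = 0 → y = 0) (hMS : ∀ i, M i ≤ S i) :
    ∃ y : ι → ℤ, (∀ i, |y i| ≤ M i) ∧ lin v y ≠ 0 ∧
      (((bx S).filter (fun x => (c + lin v x) / lin v y ∈ X)).card : ℝ) * ∏ i, (M i : ℝ)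
        ≤ (m : ℝ) ^ (2 * Fintype.card ι - 1) * (X.card + (∏ i, (2 * (Q i : ℝ) + 1)) ^ 2) := by
  classical
  set Y := (bx M).erase 0 with hY
  have hYmem : ∀ y ∈ Y, (∀ i, |y i| ≤ M i) ∧ lin v y ≠ 0 := by
    intro y hy
    rw [hY, Finset.mem_erase, mem_bx] at hy
    exact ⟨hy.2, fun h0 => hy.1 (hpropM y hy.2 h0)⟩
  have hYcard : ∏ i, M i ≤ Y.card := by
    have h0 : (0 : ι → ℤ) ∈ bx M := by rw [mem_bx]; intro i; simp
    rw [hY, Finset.card_erase_of_mem h0, card_bx]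
    have h1 : ∏ i, M i + 1 ≤ ∏ i, (2 * M i + 1) := by
      obtain ⟨i0⟩ := (inferInstance : Nonempty ι)
      rw [← Finset.mul_prod_erase _ _ (Finset.mem_univ i0),
        ← Finset.mul_prod_erase _ _ (Finset.mem_univ i0)]
      have h2 : ∏ i ∈ Finset.univ.erase i0, M i ≤ ∏ i ∈ Finset.univ.erase i0, (2 * M i + 1) :=
        Finset.prod_le_prod (fun _ _ => Nat.zero_le _) (fun i _ => by omega)
      have h3 : 1 ≤ ∏ i ∈ Finset.univ.erase i0, (2 * M i + 1) :=
        Finset.one_le_prod' (fun i _ => by omega)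
      have h4 := hM1 i0
      calc M i0 * ∏ i ∈ Finset.univ.erase i0, M i + 1
          ≤ M i0 * ∏ i ∈ Finset.univ.erase i0, (2 * M i + 1)
            + 1 * ∏ i ∈ Finset.univ.erase i0, (2 * M i + 1) := by
            rw [one_mul]; exact Nat.add_le_add (Nat.mul_le_mul_left _ h2) h3
        _ = (M i0 + 1) * ∏ i ∈ Finset.univ.erase i0, (2 * M i + 1) := by ring
        _ ≤ _ := Nat.mul_le_mul_right _ (by omega)
    omega
  have hYne : Y.Nonempty := by
    rw [← Finset.card_pos]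
    exact lt_of_lt_of_le (Finset.prod_pos fun i _ => hM1 i) hYcard
  -- the minimal shift
  obtain ⟨y, hyY, hymin⟩ := Finset.exists_min_image Y
    (fun y => ((bx S).filter (fun x => (c + lin v x) / lin v y ∈ X)).card) hYne
  refine ⟨y, (hYmem y hyY).1, (hYmem y hyY).2, ?_⟩
  have hcount := pair_count v S Q hS1 hS m hm hQ hprop c X
  have hsum : ∑ y' ∈ Y, ((bx S).filter (fun x => (c + lin v x) / lin v y' ∈ X)).card
      ≤ (((bx S) ×ˢ (bx S)).filter
        (fun q => lin v q.2 ≠ 0 ∧ (c + lin v q.1) / lin v q.2 ∈ X)).card := by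
    have h1 : (((bx S) ×ˢ Y).filter
        (fun q => lin v q.2 ≠ 0 ∧ (c + lin v q.1) / lin v q.2 ∈ X)).card
        ≤ (((bx S) ×ˢ (bx S)).filter
        (fun q => lin v q.2 ≠ 0 ∧ (c + lin v q.1) / lin v q.2 ∈ X)).card := by
      apply Finset.card_le_card
      apply Finset.filter_subset_filter
      apply Finset.product_subset_product_right
      intro w hw
      rw [hY, Finset.mem_erase, mem_bx] at hw
      rw [mem_bx]
      intro i
      refine (hw.2 i).trans ?_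
      exact_mod_cast hMS i
    refine le_trans (le_of_eq ?_) h1
    rw [Finset.card_filter, Finset.sum_product_right]
    refine Finset.sum_congr rfl fun y' hy' => ?_
    rw [Finset.card_filter]
    refine Finset.sum_congr rfl fun x _ => ?_
    have := (hYmem y' hy').2
    simp [this]
  have hfinal : ((bx S).filter (fun x => (c + lin v x) / lin v y ∈ X)).card * ∏ i, M i
      ≤ m ^ (2 * Fintype.card ι - 1) * (X.card + (∏ i, (2 * Q i + 1)) ^ 2) := by
    calc ((bx S).filter (fun x => (c + lin v x) / lin v y ∈ X)).card * ∏ i, M i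
        ≤ ((bx S).filter (fun x => (c + lin v x) / lin v y ∈ X)).card * Y.card :=
          Nat.mul_le_mul_left _ hYcard
      _ = ∑ _y' ∈ Y, ((bx S).filter (fun x => (c + lin v x) / lin v y ∈ X)).card := by
          rw [Finset.sum_const, smul_eq_mul, mul_comm]
      _ ≤ ∑ y' ∈ Y, ((bx S).filter (fun x => (c + lin v x) / lin v y' ∈ X)).card :=
          Finset.sum_le_sum fun y' hy' => hymin y' hy'
      _ ≤ _ := hsum.trans hcount
  exact_mod_cast hfinal

/-- the bilinear form on two translates of a progression -/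
theorem gap_form {ι : Type*} [Fintype ι] [DecidableEq ι] [Nonempty ι] (v : ι → ZMod p)
    (N M Q : ι → ℕ) (L : ℕ) [NeZero (2 * L)] (hM1 : ∀ i, 1 ≤ M i) (hMN : ∀ i, L * M i ≤ N i)
    (hS : (2 * Fintype.card ι).factorial * (∏ i, (2 * (4 * N i))) ^ 2 < p) (m : ℕ) (hm : 1 ≤ m)
    (hQ : ∀ i, 6 * Fintype.card ι * (4 * N i) ≤ m * Q i) (hQN : ∀ i, Q i ≤ N i)
    (hprop : ∀ y : ι → ℤ, (∀ i, |y i| ≤ N i) → lin v y = 0 → y = 0)
    (χ : DirichletCharacter ℂ p) (B : ℝ) (hB : 0 ≤ B) (c₁ c₂ : ZMod p)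
    (A₁ A₂ : Finset (ZMod p)) (f g : ZMod p → ℂ)
    (hA₁ : ∀ a ∈ A₁, ∃ x : ι → ℤ, (∀ i, |x i| ≤ N i) ∧ a = c₁ + lin v x)
    (hA₂ : ∀ a ∈ A₂, ∃ x : ι → ℤ, (∀ i, |x i| ≤ N i) ∧ a = c₂ + lin v x) :
    ‖∑ a ∈ A₁, ∑ b ∈ A₂, f a * g b * χ (a - b)‖
      ≤ (B / L * ∏ i, (4 * (N i : ℝ) + 1)
          + (m : ℝ) ^ (2 * Fintype.card ι - 1)
            * ((Bad L χ B).card + (∏ i, (2 * (Q i : ℝ) + 1)) ^ 2) / ∏ i, (M i : ℝ))
        * ((∑ a ∈ A₁, ‖f a‖ ^ 2 + ∑ b ∈ A₂, ‖g b‖ ^ 2) / 2) := by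
  classical
  have hL0 : 0 < L := by
    rcases Nat.eq_zero_or_pos L with h | h
    · exfalso
      subst h
      exact NeZero.ne (2 * 0) rfl
    · exact h
  have hN1 : ∀ i, 1 ≤ N i := fun i => by
    have h1 := hM1 i
    have h2 := hMN i
    have h3 : 1 * 1 ≤ L * M i := Nat.mul_le_mul hL0 h1
    omega
  have hMN' : ∀ i, M i ≤ N i := fun i => by
    have h2 := hMN i
    have h3 : 1 * M i ≤ L * M i := Nat.mul_le_mul_right _ hL0
    omega
  obtain ⟨y, hyM, hy0, hyR⟩ := exists_good v (fun i => 4 * N i) Q M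
    (fun i => by have := hN1 i; omega) hS m hm hQ
    (fun y hy => hprop y (fun i => (hy i).trans (by exact_mod_cast hQN i)))
    (c₁ - c₂) (Bad L χ B) hM1
    (fun y hy => hprop y (fun i => (hy i).trans (by exact_mod_cast hMN' i)))
    (fun i => by have := hMN' i; omega)
  set z := lin v y with hz
  set R : ℝ := (((bx (fun i => 4 * N i)).filter
    (fun x => ((c₁ - c₂) + lin v x) / z ∈ Bad L χ B)).card : ℝ) with hR
  have hMpos : (0 : ℝ) < ∏ i, (M i : ℝ) := by
    refine Finset.prod_pos fun i _ => ?_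
    exact_mod_cast hM1 i
  have hRle : R ≤ (m : ℝ) ^ (2 * Fintype.card ι - 1)
            * ((Bad L χ B).card + (∏ i, (2 * (Q i : ℝ) + 1)) ^ 2) / ∏ i, (M i : ℝ) := by
    rw [le_div_iff₀ hMpos]
    exact hyR
  let U : ZMod p → Finset (ZMod p) := fun c => (bx (fun i => 2 * N i)).image (fun x => c + lin v x)
  have hUcard : ∀ c, ((U c).card : ℝ) ≤ ∏ i, (4 * (N i : ℝ) + 1) := by
    intro c
    have h1 : (U c).card ≤ ∏ i, (4 * N i + 1) := by
      refine Finset.card_image_le.trans (le_of_eq ?_)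
      rw [card_bx]
      refine Finset.prod_congr rfl fun i _ => ?_
      ring
    exact_mod_cast h1
  have hUmem : ∀ (c : ZMod p) (A : Finset (ZMod p)),
      (∀ a ∈ A, ∃ x : ι → ℤ, (∀ i, |x i| ≤ N i) ∧ a = c + lin v x) →
      ∀ a ∈ A, ∀ i : ℤ, 0 ≤ i → i < L → a - (i : ZMod p) * z ∈ U c := by
    intro c A hA a ha i hi0 hiL
    obtain ⟨x, hx, e⟩ := hA a ha
    rw [Finset.mem_image]
    refine ⟨x - i • y, ?_, ?_⟩
    · rw [mem_bx]
      intro j
      rw [Pi.sub_apply, Pi.smul_apply, smul_eq_mul]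
      have h1 : |i * y j| ≤ N j := by
        rw [abs_mul, abs_of_nonneg hi0]
        calc i * |y j| ≤ L * M j := mul_le_mul hiL.le (hyM j) (abs_nonneg _) (by positivity)
          _ ≤ N j := by exact_mod_cast hMN j
      calc |x j - i * y j| ≤ |x j| + |i * y j| := abs_sub _ _
        _ ≤ N j + N j := add_le_add (hx j) h1
        _ = ((2 * N j : ℕ) : ℤ) := by push_cast; ring
    · rw [lin_sub, lin_zsmul, e]
      ring
  have hdiff : ∀ t ∈ U c₁, ∀ t' ∈ U c₂, ∃ x ∈ bx (fun i => 4 * N i),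
      t - t' = (c₁ - c₂) + lin v x := by
    intro t ht t' ht'
    rw [Finset.mem_image] at ht ht'
    obtain ⟨x, hx, rfl⟩ := ht
    obtain ⟨x', hx', rfl⟩ := ht'
    rw [mem_bx] at hx hx'
    refine ⟨x - x', ?_, ?_⟩
    · rw [mem_bx]
      intro j
      have h1 := hx j
      have h2 := hx' j
      calc |(x - x') j| ≤ |x j| + |x' j| := abs_sub _ _
        _ ≤ ((2 * N j : ℕ) : ℤ) + ((2 * N j : ℕ) : ℤ) := add_le_add h1 h2
        _ = ((4 * N j : ℕ) : ℤ) := by push_cast; ring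
    · rw [lin_sub]; ring
  have hR1 : ∀ t ∈ U c₁, (((U c₂).filter (fun t' => (t - t') * z⁻¹ ∈ Bad L χ B)).card : ℝ) ≤ R := by
    intro t ht
    have h1 : ∀ t' : ZMod p, ∃ x : ι → ℤ, t' ∈ U c₂ →
        x ∈ bx (fun i => 4 * N i) ∧ t - t' = (c₁ - c₂) + lin v x := by
      intro t'
      by_cases ht' : t' ∈ U c₂
      · obtain ⟨x, hx, e⟩ := hdiff t ht t' ht'
        exact ⟨x, fun _ => ⟨hx, e⟩⟩
      · exact ⟨0, fun h => absurd h ht'⟩
    choose X hX using h1
    have h2 : ((U c₂).filter (fun t' => (t - t') * z⁻¹ ∈ Bad L χ B)).card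
        ≤ ((bx (fun i => 4 * N i)).filter
          (fun x => ((c₁ - c₂) + lin v x) / z ∈ Bad L χ B)).card := by
      refine Finset.card_le_card_of_injOn X ?_ ?_
      · intro t' ht'
        rw [Finset.mem_coe, Finset.mem_filter] at ht'
        obtain ⟨h3, h4⟩ := hX t' ht'.1
        rw [Finset.mem_coe, Finset.mem_filter]
        refine ⟨h3, ?_⟩
        rw [← h4, div_eq_mul_inv]
        exact ht'.2
      · intro t' ht' t'' ht'' hxx
        rw [Finset.mem_coe, Finset.mem_filter] at ht' ht''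
        have h4 := (hX t' ht'.1).2
        have h5 := (hX t'' ht''.1).2
        rw [hxx, ← h5] at h4
        exact sub_right_injective h4
    rw [hR]
    exact_mod_cast h2
  have hR2 : ∀ t' ∈ U c₂, (((U c₁).filter (fun t => (t - t') * z⁻¹ ∈ Bad L χ B)).card : ℝ) ≤ R := by
    intro t' ht'
    have h1 : ∀ t : ZMod p, ∃ x : ι → ℤ, t ∈ U c₁ →
        x ∈ bx (fun i => 4 * N i) ∧ t - t' = (c₁ - c₂) + lin v x := by
      intro t
      by_cases ht : t ∈ U c₁
      · obtain ⟨x, hx, e⟩ := hdiff t ht t' ht'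
        exact ⟨x, fun _ => ⟨hx, e⟩⟩
      · exact ⟨0, fun h => absurd h ht⟩
    choose X hX using h1
    have h2 : ((U c₁).filter (fun t => (t - t') * z⁻¹ ∈ Bad L χ B)).card
        ≤ ((bx (fun i => 4 * N i)).filter
          (fun x => ((c₁ - c₂) + lin v x) / z ∈ Bad L χ B)).card := by
      refine Finset.card_le_card_of_injOn X ?_ ?_
      · intro t ht
        rw [Finset.mem_coe, Finset.mem_filter] at ht
        obtain ⟨h3, h4⟩ := hX t ht.1
        rw [Finset.mem_coe, Finset.mem_filter]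
        refine ⟨h3, ?_⟩
        rw [← h4, div_eq_mul_inv]
        exact ht.2
      · intro t ht t'' ht'' hxx
        rw [Finset.mem_coe, Finset.mem_filter] at ht ht''
        have h4 := (hX t ht.1).2
        have h5 := (hX t'' ht''.1).2
        rw [hxx, ← h5] at h4
        exact sub_left_injective h4
    rw [hR]
    exact_mod_cast h2
  have hmain := shift_bound L χ B hB z hy0 A₁ A₂ (U c₁) (U c₂) f g (hUmem c₁ A₁ hA₁)
    (hUmem c₂ A₂ hA₂) (∏ i, (4 * (N i : ℝ) + 1)) R (hUcard c₁) (hUcard c₂) hR1 hR2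
  refine hmain.trans (mul_le_mul_of_nonneg_right ?_ ?_)
  · linarith
  · have h1 : 0 ≤ ∑ a ∈ A₁, ‖f a‖ ^ 2 := Finset.sum_nonneg fun _ _ => by positivity
    have h2 : 0 ≤ ∑ b ∈ A₂, ‖g b‖ ^ 2 := Finset.sum_nonneg fun _ _ => by positivity
    positivity

end Pool.Agent.W27.BG
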