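import Pool.Agent.H435R3.Paley.Mom
import Pool.Agent.H435R3.Weil.Main
import Pool.Agent.H471R4.BW.CSL

/-! Square root cancellation for every non-trivial character (after H435R3.Paley.All), and weighted
moments over the shifts. -/

set_option autoImplicit false

namespace Pool.Agent.W27.BG

open Finset Pool.Agent.H471R4.BW Polynomial Pool.Agent.H435R3.Weil Pool.Agent.H435R3.Paley

/-- square root cancellation for every non-trivial character modulo `p`, uniformly -/
theorem complete_all (p : ℕ) [Fact p.Prime] (χ : DirichletCharacter ℂ p) (hχ : χ ≠ 1) (r : ℕ) :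
    Complete p χ r p (2 * r) := by
  classical
  intro b c hb hc huniq
  have hpp : p.Prime := Fact.out
  set t := orderOf χ with ht
  have hdvd : t ∣ Fintype.card (ZMod p) - 1 := MulChar.orderOf_dvd_card_sub_one (F := ZMod p) χ
  have ht0 : t ≠ 0 := by
    intro h0
    rw [h0, zero_dvd_iff, ZMod.card] at hdvd
    have := hpp.two_le
    omega
  have ht1 : t ≠ 1 := fun h1 => hχ (orderOf_eq_one_iff.1 h1)
  have ht2 : 2 ≤ t := by omega
  have hχt : χ ^ t = 1 := pow_orderOf_eq_one χ
  set P : (ZMod p)[X] := ∏ i, (X + C (b i : ZMod p)) with hP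
  set R : (ZMod p)[X] := ∏ i, (X + C (c i : ZMod p)) with hR
  have hPm : P.Monic := monic_prod_of_monic _ _ fun i _ => monic_X_add_C _
  have hRm : R.Monic := monic_prod_of_monic _ _ fun i _ => monic_X_add_C _
  have hF0 : P * R ^ (t - 1) ≠ 0 := (hPm.mul (hRm.pow _)).ne_zero
  have hPdeg : P.natDegree = r := by
    rw [hP, natDegree_prod_of_monic _ _ fun i _ => monic_X_add_C _,
      sum_congr rfl (fun i _ => natDegree_X_add_C (b i : ZMod p))]
    simp
  have hRdeg : R.natDegree = r := by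
    rw [hR, natDegree_prod_of_monic _ _ fun i _ => monic_X_add_C _,
      sum_congr rfl (fun i _ => natDegree_X_add_C (c i : ZMod p))]
    simp
  have hcop : Cop t (P * R ^ (t - 1)) := by
    obtain ⟨v, hv⟩ := huniq
    have hvB : v < p := by
      by_contra hcon
      have h1 : (univ.filter fun i => b i = v) = ∅ := by
        refine filter_false_of_mem fun i _ hi => ?_
        have := hb i
        omega
      have h2 : (univ.filter fun i => c i = v) = ∅ := by
        refine filter_false_of_mem fun i _ hi => ?_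
        have := hc i
        omega
      rw [h1, h2] at hv
      simp at hv
    refine ⟨-(v : ZMod p), ?_⟩
    have e2 : rootMultiplicity (-(v : ZMod p)) (P * R ^ (t - 1)) =
        (univ.filter fun i => b i = v).card + (t - 1) * (univ.filter fun i => c i = v).card := by
      rw [rootMultiplicity_mul hF0, csl_rm_pow R _ hRm.ne_zero, hP, hR,
        csl_rm_prod _ _ _ (fun i _ => (monic_X_add_C _).ne_zero),
        csl_rm_prod _ _ _ (fun i _ => (monic_X_add_C _).ne_zero),
        csl_count le_rfl b hb v hvB, csl_count le_rfl c hc v hvB]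
    rw [e2]
    rcases Nat.eq_zero_or_pos (univ.filter fun i => b i = v).card with h0 | h0
    · have h1 : (univ.filter fun i => c i = v).card = 1 := by omega
      rw [h0, h1, zero_add, mul_one]
      have h2 : t = (t - 1) + 1 := by omega
      have h3 : Nat.Coprime (t - 1) ((t - 1) + 1) := by simp
      rwa [← h2] at h3
    · have h1 : (univ.filter fun i => c i = v).card = 0 := by omega
      have h2 : (univ.filter fun i => b i = v).card = 1 := by omega
      rw [h1, h2, mul_zero, add_zero]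
      exact Nat.coprime_one_left t
  have hw := weil t ht2 hdvd χ hχ hχt P R hPm hRm hcop
  rw [hPdeg, hRdeg, ZMod.card] at hw
  have e1 : ∀ x : ZMod p, χ (P.eval x) * (starRingEnd ℂ) (χ (R.eval x)) =
      (∏ i, χ (x + (b i : ZMod p))) * ∏ i, (starRingEnd ℂ) (χ (x + (c i : ZMod p))) := by
    intro x
    rw [hP, hR, eval_prod, eval_prod, map_prod, map_prod, map_prod]
    simp
  rw [sum_congr rfl fun x _ => e1 x] at hw
  refine hw.trans (le_of_eq ?_)
  push_cast
  ring


/-- the product over a pair of tuples, with weights -/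
noncomputable def wt {n : ℕ} (cf : Fin n → ℂ) (r : ℕ) (b c : Fin r → Fin n) : ℂ :=
  (∏ i, cf (b i)) * ∏ i, (starRingEnd ℂ) (cf (c i))

theorem wt_norm {n : ℕ} (cf : Fin n → ℂ) (hcf : ∀ j, ‖cf j‖ ≤ 1) (r : ℕ) (b c : Fin r → Fin n) :
    ‖wt cf r b c‖ ≤ 1 := by
  unfold wt
  rw [norm_mul, norm_prod, norm_prod]
  refine mul_le_one₀ (Finset.prod_le_one (fun i _ => norm_nonneg _) fun i _ => hcf _)
    (Finset.prod_nonneg fun i _ => norm_nonneg _)
    (Finset.prod_le_one (fun i _ => norm_nonneg _) fun i _ => ?_)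
  rw [RCLike.norm_conj]
  exact hcf _

theorem expand_w {N : ℕ} [NeZero N] (χ : DirichletCharacter ℂ N) (r n : ℕ) (w : Fin n → ZMod N)
    (cf : Fin n → ℂ) (x : ZMod N) :
    ((‖∑ j, cf j * χ (x + w j)‖ ^ (2 * r) : ℝ) : ℂ) =
      ∑ b : Fin r → Fin n, ∑ c : Fin r → Fin n, wt cf r b c * term χ r n w b c x := by
  set S : ℂ := ∑ j, cf j * χ (x + w j) with hS
  have h1 : ((‖S‖ ^ (2 * r) : ℝ) : ℂ) = S ^ r * (starRingEnd ℂ) S ^ r := by
    rw [← mul_pow, Complex.mul_conj, Complex.normSq_eq_norm_sq, pow_mul]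
    push_cast
    ring
  have h2 : S ^ r = ∑ b : Fin r → Fin n, ∏ i, (cf (b i) * χ (x + w (b i))) := by
    rw [hS, ← Fin.prod_const, Finset.prod_univ_sum, Fintype.piFinset_univ]
  have h3 : (starRingEnd ℂ) S ^ r =
      ∑ c : Fin r → Fin n, ∏ i, ((starRingEnd ℂ) (cf (c i)) * (starRingEnd ℂ) (χ (x + w (c i)))) := by
    rw [hS, map_sum, ← Fin.prod_const, Finset.prod_univ_sum, Fintype.piFinset_univ]
    simp only [map_mul]
  rw [h1, h2, h3, Finset.sum_mul_sum]
  refine Finset.sum_congr rfl fun b _ => Finset.sum_congr rfl fun c _ => ?_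
  rw [Finset.prod_mul_distrib, Finset.prod_mul_distrib]
  unfold wt term
  ring

open Classical in
/-- weighted high moment over all shifts, for one character -/
theorem momB_w {N : ℕ} [NeZero N] (χ : DirichletCharacter ℂ N) (r n : ℕ) (K : ℝ) (hr : 1 ≤ r)
    (hK : 0 ≤ K) (w : Fin n → ZMod N) (hw : Function.Injective w) (cf : Fin n → ℂ)
    (hcf : ∀ j, ‖cf j‖ ≤ 1) (hC : Complete N χ r N K) :
    ∑ x : ZMod N, ‖∑ j, cf j * χ (x + w j)‖ ^ (2 * r) ≤
      (r : ℝ) ^ (2 * r) * (n : ℝ) ^ r * N + K * (n : ℝ) ^ (2 * r) * Real.sqrt N := by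
  have hW : ((∑ x : ZMod N, ‖∑ j, cf j * χ (x + w j)‖ ^ (2 * r) : ℝ) : ℂ) =
      ∑ u : (Fin r → Fin n) × (Fin r → Fin n), wt cf r u.1 u.2 *
        ∑ x : ZMod N, term χ r n w u.1 u.2 x := by
    have e1 : ∑ u : (Fin r → Fin n) × (Fin r → Fin n), wt cf r u.1 u.2 *
        ∑ x : ZMod N, term χ r n w u.1 u.2 x = ∑ x : ZMod N,
        ∑ u : (Fin r → Fin n) × (Fin r → Fin n), wt cf r u.1 u.2 * term χ r n w u.1 u.2 x := by
      rw [Finset.sum_comm]
      refine Finset.sum_congr rfl fun u _ => ?_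
      rw [Finset.mul_sum]
    rw [e1]
    push_cast
    refine Finset.sum_congr rfl fun x _ => ?_
    have := expand_w χ r n w cf x
    push_cast at this
    rw [this, ← Finset.univ_product_univ, Finset.sum_product]
  have hW0 : 0 ≤ ∑ x : ZMod N, ‖∑ j, cf j * χ (x + w j)‖ ^ (2 * r) :=
    Finset.sum_nonneg fun x _ => by positivity
  have hW1 : ∑ x : ZMod N, ‖∑ j, cf j * χ (x + w j)‖ ^ (2 * r) =
      ‖∑ u : (Fin r → Fin n) × (Fin r → Fin n), wt cf r u.1 u.2 *
        ∑ x : ZMod N, term χ r n w u.1 u.2 x‖ := by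
    rw [← hW, Complex.norm_real, Real.norm_eq_abs, abs_of_nonneg hW0]
  rw [hW1]
  refine (norm_sum_le _ _).trans ?_
  have hterm : ∀ u : (Fin r → Fin n) × (Fin r → Fin n), ‖wt cf r u.1 u.2 *
      ∑ x : ZMod N, term χ r n w u.1 u.2 x‖ ≤ ‖∑ x : ZMod N, term χ r n w u.1 u.2 x‖ := by
    intro u
    rw [norm_mul]
    exact mul_le_of_le_one_left (norm_nonneg _) (wt_norm cf hcf r u.1 u.2)
  refine (Finset.sum_le_sum fun u _ => hterm u).trans ?_
  rw [← Finset.sum_filter_add_sum_filter_not Finset.univ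
    (fun u : (Fin r → Fin n) × (Fin r → Fin n) =>
      ¬ Uniq (fun i => (u.1 i : ℕ)) (fun i => (u.2 i : ℕ)))]
  refine add_le_add ?_ ?_
  · have h1 : ∀ u ∈ Finset.univ.filter (fun u : (Fin r → Fin n) × (Fin r → Fin n) =>
        ¬ Uniq (fun i => (u.1 i : ℕ)) (fun i => (u.2 i : ℕ))),
        ‖∑ x : ZMod N, term χ r n w u.1 u.2 x‖ ≤ (N : ℝ) := by
      intro u _
      refine (norm_sum_le _ _).trans ?_
      calc ∑ x : ZMod N, ‖term χ r n w u.1 u.2 x‖ ≤ ∑ _x : ZMod N, (1 : ℝ) :=
            Finset.sum_le_sum fun x _ => term_norm_le χ r n w u.1 u.2 x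
        _ = N := by simp
    refine (Finset.sum_le_card_nsmul _ _ _ h1).trans ?_
    rw [nsmul_eq_mul]
    have h2 : (((Finset.univ.filter (fun u : (Fin r → Fin n) × (Fin r → Fin n) =>
        ¬ Uniq (fun i => (u.1 i : ℕ)) (fun i => (u.2 i : ℕ)))).card : ℕ) : ℝ) ≤
        (r : ℝ) ^ (2 * r) * (n : ℝ) ^ r := by
      exact_mod_cast tup r n hr
    exact mul_le_mul_of_nonneg_right h2 (Nat.cast_nonneg N)
  · have h1 : ∀ u ∈ Finset.univ.filter (fun u : (Fin r → Fin n) × (Fin r → Fin n) =>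
        ¬ ¬ Uniq (fun i => (u.1 i : ℕ)) (fun i => (u.2 i : ℕ))),
        ‖∑ x : ZMod N, term χ r n w u.1 u.2 x‖ ≤ K * Real.sqrt N := by
      intro u hu
      rw [Finset.mem_filter] at hu
      have h3 := hC (fun i => (w (u.1 i)).val) (fun i => (w (u.2 i)).val)
        (fun i => ZMod.val_lt _) (fun i => ZMod.val_lt _)
        (uniq_val w hw u.1 u.2 (not_not.1 hu.2))
      simp only [ZMod.natCast_zmod_val] at h3
      exact h3
    refine (Finset.sum_le_card_nsmul _ _ _ h1).trans ?_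
    rw [nsmul_eq_mul]
    have h2 : (((Finset.univ.filter (fun u : (Fin r → Fin n) × (Fin r → Fin n) =>
        ¬ ¬ Uniq (fun i => (u.1 i : ℕ)) (fun i => (u.2 i : ℕ)))).card : ℕ) : ℝ) ≤
        (n : ℝ) ^ (2 * r) := by
      have h3 := Finset.card_filter_le (Finset.univ : Finset ((Fin r → Fin n) × (Fin r → Fin n)))
        (fun u => ¬ ¬ Uniq (fun i => (u.1 i : ℕ)) (fun i => (u.2 i : ℕ)))
      have h4 : (Finset.univ : Finset ((Fin r → Fin n) × (Fin r → Fin n))).card = n ^ (2 * r) := by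
        rw [Finset.card_univ, Fintype.card_prod, Fintype.card_fun, Fintype.card_fin,
          Fintype.card_fin, two_mul, pow_add]
      rw [h4] at h3
      exact_mod_cast h3
    calc _ ≤ (n : ℝ) ^ (2 * r) * (K * Real.sqrt N) :=
          mul_le_mul_of_nonneg_right h2 (mul_nonneg hK (Real.sqrt_nonneg _))
      _ = K * (n : ℝ) ^ (2 * r) * Real.sqrt N := by ring

/-- the same bound for a finite set of shifts -/
theorem momF_w {p : ℕ} [Fact p.Prime] (χ : DirichletCharacter ℂ p) (hχ : χ ≠ 1) (r : ℕ)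
    (hr : 1 ≤ r) (s : Finset (ZMod p)) (cf : ZMod p → ℂ) (hcf : ∀ j, ‖cf j‖ ≤ 1) :
    ∑ x : ZMod p, ‖∑ b ∈ s, cf b * χ (x + b)‖ ^ (2 * r) ≤
      (r : ℝ) ^ (2 * r) * (s.card : ℝ) ^ r * p + (2 * r) * (s.card : ℝ) ^ (2 * r) * Real.sqrt p := by
  classical
  have h := momB_w χ r s.card (2 * r) hr (by positivity) (fun j => (s.equivFin.symm j : ZMod p))
    (fun i j hij => s.equivFin.symm.injective (Subtype.ext hij))
    (fun j => cf (s.equivFin.symm j : ZMod p)) (fun j => hcf _) (complete_all p χ hχ r)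
  have e : ∀ x : ZMod p, ∑ j : Fin s.card, cf (s.equivFin.symm j : ZMod p) *
      χ (x + (s.equivFin.symm j : ZMod p)) = ∑ b ∈ s, cf b * χ (x + b) := by
    intro x
    rw [Equiv.sum_comp s.equivFin.symm (fun b : s => cf (b : ZMod p) * χ (x + (b : ZMod p)))]
    exact Finset.sum_coe_sort s (fun b => cf b * χ (x + b))
  simp only [e] at h
  exact h

end Pool.Agent.W27.BG
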