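import Mathlib

/-! Integer points on a linear congruence in a box of volume less than the modulus lie on a
hyperplane; consequences for counting. -/

set_option autoImplicit false

open Finset

namespace Pool.Agent.W27.BG

variable {p : ℕ} [Fact p.Prime]

/-- the linear form with coefficients `u` -/
def lin {ι : Type*} [Fintype ι] (u : ι → ZMod p) (w : ι → ℤ) : ZMod p := ∑ j, (w j : ZMod p) * u j

theorem lin_sub {ι : Type*} [Fintype ι] (u : ι → ZMod p) (w w' : ι → ℤ) :
    lin u (w - w') = lin u w - lin u w' := by
  unfold lin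
  rw [← Finset.sum_sub_distrib]
  refine Finset.sum_congr rfl fun j _ => ?_
  rw [Pi.sub_apply]
  push_cast
  ring

/-- the points of a small box on the congruence lie on a hyperplane -/
theorem exists_hyper {ι : Type*} [Fintype ι] [DecidableEq ι] (u : ι → ZMod p) (hu : u ≠ 0)
    (S : ι → ℕ) (hS : (Fintype.card ι).factorial * ∏ j, S j < p) :
    ∃ h : ι → ℚ, h ≠ 0 ∧ ∀ w : ι → ℤ, (∀ j, |w j| ≤ S j) → lin u w = 0 →
      ∑ j, h j * (w j : ℚ) = 0 := by
  classical
  set G : Set (ι → ℚ) := {x | ∃ w : ι → ℤ, (∀ j, |w j| ≤ S j) ∧ lin u w = 0 ∧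
    x = fun j => (w j : ℚ)} with hG
  by_cases htop : Submodule.span ℚ G = ⊤
  · exfalso
    obtain ⟨b, hbG, hbspan, hbli⟩ := exists_linearIndependent ℚ G
    rw [htop] at hbspan
    let bas : Module.Basis b ℚ (ι → ℚ) :=
      Module.Basis.mk hbli (by rw [Subtype.range_coe_subtype]; simp only [Set.ofPred_mem_eq]; rw [hbspan])
    have hfin : Finite b := Module.Finite.finite_basis bas
    have : Fintype b := Fintype.ofFinite b
    have hcard : Fintype.card ι = Fintype.card b := by
      have h1 := Module.finrank_eq_card_basis bas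
      rw [Module.finrank_fintype_fun_eq_card] at h1
      exact h1
    let e : ι ≃ b := Fintype.equivOfCardEq hcard
    have hw : ∀ i : ι, ∃ w : ι → ℤ, (∀ j, |w j| ≤ S j) ∧ lin u w = 0 ∧
        ((e i : b) : ι → ℚ) = fun j => (w j : ℚ) := fun i => hbG (e i).2
    choose W hW1 hW2 hW3 using hw
    let M : Matrix ι ι ℤ := Matrix.of W
    have hdet : M.det ≠ 0 := by
      have hli : LinearIndependent ℚ (fun i : ι => fun j => (W i j : ℚ)) := by
        have h1 : LinearIndependent ℚ ((fun x : b => (x : ι → ℚ)) ∘ e) :=
          hbli.comp e e.injective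
        have h2 : ((fun x : b => (x : ι → ℚ)) ∘ e) = (fun i : ι => fun j => (W i j : ℚ)) := by
          funext i
          exact hW3 i
        rwa [h2] at h1
      have h3 : IsUnit (M.map (Int.cast : ℤ → ℚ)) := by
        rw [← Matrix.linearIndependent_rows_iff_isUnit]
        exact hli
      have h4 := (Matrix.isUnit_iff_isUnit_det _).1 h3
      intro h0
      have h5 : (M.map (Int.cast : ℤ → ℚ)).det = ((M.det : ℤ) : ℚ) := by
        have := (RingHom.map_det (Int.castRingHom ℚ) M)
        exact this.symm
      rw [h5, h0] at h4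
      simp at h4
    have hdvd : (p : ℤ) ∣ M.det := by
      rw [← ZMod.intCast_zmod_eq_zero_iff_dvd]
      have h5 : ((M.map (Int.cast : ℤ → ZMod p))).det = ((M.det : ℤ) : ZMod p) := by
        have := (RingHom.map_det (Int.castRingHom (ZMod p)) M)
        exact this.symm
      rw [← h5]
      rw [← Matrix.exists_mulVec_eq_zero_iff]
      refine ⟨u, hu, ?_⟩
      funext i
      have := hW2 i
      unfold lin at this
      simpa [Matrix.mulVec, dotProduct, M] using this
    have habs : |M.det| ≤ ((Fintype.card ι).factorial * ∏ j, S j : ℕ) := by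
      rw [Matrix.det_apply]
      refine (Finset.abs_sum_le_sum_abs _ _).trans ?_
      have h1 : ∀ σ : Equiv.Perm ι, |Equiv.Perm.sign σ • ∏ i, M (σ i) i| ≤ ((∏ j, S j : ℕ) : ℤ) := by
        intro σ
        have h2 : |Equiv.Perm.sign σ • ∏ i, M (σ i) i| = |∏ i, M (σ i) i| := by
          rcases Int.units_eq_one_or (Equiv.Perm.sign σ) with h | h <;> rw [h] <;> simp
        rw [h2, Finset.abs_prod]
        push_cast
        exact Finset.prod_le_prod (fun _ _ => abs_nonneg _) (fun i _ => hW1 (σ i) i)
      refine (Finset.sum_le_sum fun σ _ => h1 σ).trans ?_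
      rw [Finset.sum_const, Finset.card_univ, Fintype.card_perm]
      push_cast
      simp
    have h6 : (p : ℤ) ≤ |M.det| := Int.le_of_dvd (abs_pos.2 hdet) ((dvd_abs _ _).2 hdvd)
    have h7 : (p : ℤ) ≤ ((Fintype.card ι).factorial * ∏ j, S j : ℕ) := h6.trans habs
    have h8 : p ≤ (Fintype.card ι).factorial * ∏ j, S j := by exact_mod_cast h7
    omega
  · obtain ⟨f, hf0, hf⟩ := Submodule.exists_le_ker_of_lt_top _ (lt_top_iff_ne_top.2 htop)
    refine ⟨fun j => f (Pi.single j 1), ?_, ?_⟩
    · intro h0
      apply hf0
      refine LinearMap.pi_ext fun j x => ?_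
      have h1 : Pi.single j x = x • (Pi.single j 1 : ι → ℚ) := by
        rw [← Pi.single_smul]; simp
      rw [h1, map_smul]
      have := congrFun h0 j
      simp only [Pi.zero_apply] at this
      rw [this]
      simp
    · intro w hw hl
      have h1 : (fun j => (w j : ℚ)) ∈ Submodule.span ℚ G := Submodule.subset_span ⟨w, hw, hl, rfl⟩
      have h2 := hf h1
      rw [LinearMap.mem_ker, LinearMap.pi_apply_eq_sum_univ] at h2
      rw [← h2]
      refine Finset.sum_congr rfl fun j _ => ?_
      rw [smul_eq_mul, mul_comm]
      congr 1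
      show f (Pi.single j 1) = f _
      congr 1
      funext k
      by_cases hk : j = k
      · subst hk; simp
      · simp [hk, Pi.single_apply, Ne.symm hk]

/-- symmetric box -/
noncomputable def bx {ι : Type*} [Fintype ι] [DecidableEq ι] (S : ι → ℕ) : Finset (ι → ℤ) :=
  Fintype.piFinset fun j => Finset.Icc (-(S j : ℤ)) (S j)

theorem mem_bx {ι : Type*} [Fintype ι] [DecidableEq ι] {S : ι → ℕ} {w : ι → ℤ} :
    w ∈ bx S ↔ ∀ j, |w j| ≤ S j := by
  unfold bx
  simp [Fintype.mem_piFinset, abs_le]

theorem card_bx {ι : Type*} [Fintype ι] [DecidableEq ι] (S : ι → ℕ) :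
    (bx S).card = ∏ j, (2 * S j + 1) := by
  unfold bx
  rw [Fintype.card_piFinset]
  refine Finset.prod_congr rfl fun j _ => ?_
  rw [Int.card_Icc]
  omega

/-- the number of points of a box on an affine congruence, compared with a smaller box: one
factor is gained because the points lie on a hyperplane -/
theorem count_cells {ι : Type*} [Fintype ι] [DecidableEq ι] (u : ι → ZMod p) (hu : u ≠ 0)
    (S Q : ι → ℕ) (hS1 : ∀ j, 1 ≤ S j)
    (hS : (Fintype.card ι).factorial * ∏ j, (2 * S j) < p) (c : ZMod p) (m : ℕ) (hm : 1 ≤ m)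
    (hQ : ∀ j, 3 * Fintype.card ι * S j ≤ m * Q j) :
    ((bx S).filter (fun w => lin u w = c)).card
      ≤ ((bx Q).filter (fun w => lin u w = 0)).card * m ^ (Fintype.card ι - 1) := by
  classical
  obtain ⟨h, hh0, hh⟩ := exists_hyper u hu (fun j => 2 * S j) hS
  have hne : Nonempty ι := by
    by_contra hcon
    rw [not_nonempty_iff] at hcon
    exact hh0 (Subsingleton.elim _ _)
  obtain ⟨j0, hj0⟩ := Finite.exists_max (fun j => |h j| * (S j : ℚ))
  have hpos : 0 < |h j0| := by
    obtain ⟨j1, hj1⟩ := Function.ne_iff.1 hh0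
    simp only [Pi.zero_apply] at hj1
    have h1 : 0 < |h j1| * (S j1 : ℚ) := by
      have : (0 : ℚ) < S j1 := by exact_mod_cast hS1 j1
      exact mul_pos (abs_pos.2 hj1) this
    have h2 := h1.trans_le (hj0 j1)
    by_contra hcon
    have h3 : |h j0| = 0 := le_antisymm (not_lt.1 hcon) (abs_nonneg _)
    rw [h3, zero_mul] at h2
    exact lt_irrefl _ h2
  let cell : (ι → ℤ) → ({j : ι // j ≠ j0} → ℤ) := fun w j =>
    (w j + S j) * m / (2 * S j + 1)
  let tgt : Finset ({j : ι // j ≠ j0} → ℤ) := Fintype.piFinset fun _ => Finset.Ico 0 (m : ℤ)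
  have htgt : tgt.card = m ^ (Fintype.card ι - 1) := by
    simp only [tgt, Fintype.card_piFinset, Int.card_Ico, Finset.prod_const, Finset.card_univ]
    rw [Fintype.card_subtype_compl, Fintype.card_subtype_eq]
    simp
  rw [← htgt]
  refine Finset.card_le_mul_card_image_of_maps_to (f := cell) ?_ _ ?_
  · intro w hw
    rw [Finset.mem_filter, mem_bx] at hw
    simp only [tgt, Fintype.mem_piFinset, Finset.mem_Ico, cell]
    intro j
    have h1 := abs_le.1 (hw.1 j)
    have hm' : (1 : ℤ) ≤ m := by exact_mod_cast hm
    constructor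
    · apply Int.ediv_nonneg
      · nlinarith
      · positivity
    · rw [Int.ediv_lt_iff_lt_mul (by positivity)]
      nlinarith
  · intro b _
    by_cases hne2 : (((bx S).filter (fun w => lin u w = c)).filter (fun w => cell w = b)).Nonempty
    · obtain ⟨w0, hw0⟩ := hne2
      rw [Finset.mem_filter, Finset.mem_filter, mem_bx] at hw0
      refine Finset.card_le_card_of_injOn (fun w => w - w0) ?_ ?_
      · intro w hw
        rw [Finset.mem_coe, Finset.mem_filter, Finset.mem_filter, mem_bx] at hw
        rw [Finset.mem_coe, Finset.mem_filter, mem_bx]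
        have hlin : lin u (w - w0) = 0 := by
          rw [lin_sub, hw.1.2, hw0.1.2, sub_self]
        refine ⟨?_, hlin⟩
        have hmZ : (1 : ℤ) ≤ m := by exact_mod_cast hm
        -- coordinates other than `j0`
        have hcell : ∀ j : ι, j ≠ j0 → (m : ℤ) * |w j - w0 j| ≤ 3 * S j := by
          intro j hj
          have h1 : cell w ⟨j, hj⟩ = cell w0 ⟨j, hj⟩ := by rw [hw.2, hw0.2]
          simp only [cell] at h1
          have hd : (0 : ℤ) < 2 * S j + 1 := by positivity
          have h2 := Int.ediv_mul_le ((w j + S j) * (m : ℤ)) hd.ne'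
          have h3 := Int.lt_ediv_add_one_mul_self ((w j + S j) * (m : ℤ)) hd
          have h4 := Int.ediv_mul_le ((w0 j + S j) * (m : ℤ)) hd.ne'
          have h5 := Int.lt_ediv_add_one_mul_self ((w0 j + S j) * (m : ℤ)) hd
          rw [h1] at h2 h3
          have hS1' : (1 : ℤ) ≤ S j := by exact_mod_cast hS1 j
          have h6 : |(m : ℤ) * (w j - w0 j)| < 2 * S j + 1 := by
            rw [abs_lt]
            constructor <;> nlinarith
          rw [abs_mul, abs_of_nonneg (by linarith : (0 : ℤ) ≤ m)] at h6
          linarith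
        -- the coordinate `j0`
        have hdiff2 : ∀ j, |(w - w0) j| ≤ ((2 * S j : ℕ) : ℤ) := by
          intro j
          have h1 := abs_le.1 (hw.1.1 j)
          have h2 := abs_le.1 (hw0.1.1 j)
          rw [Pi.sub_apply, abs_le]
          push_cast
          constructor <;> linarith
        have hrel := hh (w - w0) hdiff2 hlin
        have hc0 : (m : ℚ) * |((w j0 - w0 j0 : ℤ) : ℚ)| ≤ 3 * (Fintype.card ι : ℚ) * S j0 := by
          rw [← Finset.add_sum_erase _ _ (Finset.mem_univ j0)] at hrel
          have h1 : |h j0| * |((w j0 - w0 j0 : ℤ) : ℚ)|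
              ≤ ∑ j ∈ Finset.univ.erase j0, |h j| * |((w j - w0 j : ℤ) : ℚ)| := by
            have h2 : h j0 * ((w - w0) j0 : ℚ) = -∑ j ∈ Finset.univ.erase j0, h j * ((w - w0) j : ℚ) := by
              linarith
            rw [← abs_mul]
            have h3 : h j0 * ((w j0 - w0 j0 : ℤ) : ℚ) = -∑ j ∈ Finset.univ.erase j0, h j * ((w - w0) j : ℚ) := h2
            rw [h3, abs_neg]
            refine (Finset.abs_sum_le_sum_abs _ _).trans (le_of_eq ?_)
            refine Finset.sum_congr rfl fun j _ => ?_
            rw [abs_mul]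
            rfl
          have h4 : |h j0| * ((m : ℚ) * |((w j0 - w0 j0 : ℤ) : ℚ)|)
              ≤ |h j0| * (3 * (Fintype.card ι : ℚ) * S j0) := by
            calc |h j0| * ((m : ℚ) * |((w j0 - w0 j0 : ℤ) : ℚ)|)
                = m * (|h j0| * |((w j0 - w0 j0 : ℤ) : ℚ)|) := by ring
              _ ≤ m * ∑ j ∈ Finset.univ.erase j0, |h j| * |((w j - w0 j : ℤ) : ℚ)| :=
                  mul_le_mul_of_nonneg_left h1 (by positivity)
              _ = ∑ j ∈ Finset.univ.erase j0, |h j| * (m * |((w j - w0 j : ℤ) : ℚ)|) := by
                  rw [Finset.mul_sum]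
                  refine Finset.sum_congr rfl fun j _ => ?_
                  ring
              _ ≤ ∑ j ∈ Finset.univ.erase j0, 3 * (|h j0| * S j0) := by
                  refine Finset.sum_le_sum fun j hj => ?_
                  have h5 := hcell j (Finset.ne_of_mem_erase hj)
                  have h6 : (m : ℚ) * |((w j - w0 j : ℤ) : ℚ)| ≤ 3 * S j := by
                    exact_mod_cast h5
                  calc |h j| * (m * |((w j - w0 j : ℤ) : ℚ)|) ≤ |h j| * (3 * S j) :=
                        mul_le_mul_of_nonneg_left h6 (abs_nonneg _)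
                    _ = 3 * (|h j| * S j) := by ring
                    _ ≤ 3 * (|h j0| * S j0) := by
                        have := hj0 j
                        linarith
              _ = ((Finset.univ.erase j0).card : ℚ) * (3 * (|h j0| * S j0)) := by
                  rw [Finset.sum_const, nsmul_eq_mul]
              _ ≤ (Fintype.card ι : ℚ) * (3 * (|h j0| * S j0)) := by
                  refine mul_le_mul_of_nonneg_right ?_ (by positivity)
                  have : (Finset.univ.erase j0).card ≤ Fintype.card ι := by
                    rw [← Finset.card_univ]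
                    exact Finset.card_le_card (Finset.erase_subset _ _)
                  exact_mod_cast this
              _ = _ := by ring
          exact le_of_mul_le_mul_left h4 hpos
        intro j
        show |w j - w0 j| ≤ Q j
        have hQj : (3 : ℤ) * Fintype.card ι * S j ≤ m * Q j := by exact_mod_cast hQ j
        have hcard1 : (1 : ℤ) ≤ Fintype.card ι := by exact_mod_cast Fintype.card_pos
        have hfin : (m : ℤ) * |w j - w0 j| ≤ m * Q j := by
          by_cases hj : j = j0
          · subst hj
            have h7 : (m : ℤ) * |w j - w0 j| ≤ 3 * Fintype.card ι * S j := by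
              exact_mod_cast hc0
            linarith
          · have h7 := hcell j hj
            have h8 : (3 : ℤ) * S j ≤ 3 * Fintype.card ι * S j := by
              have hS0 : (0 : ℤ) ≤ S j := by positivity
              nlinarith
            linarith
        exact le_of_mul_le_mul_left hfin (by linarith)
      · intro a _ b _ hab
        exact sub_left_injective hab
    · rw [Finset.not_nonempty_iff_eq_empty] at hne2
      rw [hne2, Finset.card_empty]
      exact Nat.zero_le _

end Pool.Agent.W27.BG
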