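import Pool.Agent.W27.BG.Final

/-! Bilinear forms with kernel `χ (a - b)` on sets of small doubling: the main theorem. -/

set_option autoImplicit false

open Finset
open scoped Pointwise

namespace Pool.Agent.W27.BG

open Pool.Agent.W27.SD

/-- the arithmetic mean form of the theorem -/
theorem master (δ ε K : ℝ) (hδ : 0 < δ) (hε0 : 0 < ε) (hε16 : ε ≤ 1 / 16) (hδε : δ + 4 * ε ≤ 1 / 2)
    (hK : 1 ≤ K) :
    ∃ κ : ℝ, 0 < κ ∧ κ ≤ ε / 32 ∧ ∀ k : ℕ, 1 ≤ k → ∃ η : ℝ, 0 < η ∧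
      ∃ P : ℕ, ∀ (p : ℕ) [Fact p.Prime], P ≤ p →
      ∀ (χ : DirichletCharacter ℂ p) (L : ℕ) [NeZero (2 * L)], L = ⌊(p : ℝ) ^ κ⌋₊ →
      ((Bad L χ ((L : ℝ) ^ (1 - 1 / (2 * (k : ℝ))))).card : ℝ) ≤ (p : ℝ) ^ (2 * δ) →
      ∀ B : Finset (ZMod p), (p : ℝ) ^ (δ + 4 * ε) < B.card →
        ((B + B).card : ℝ) ≤ K * B.card → ∀ X A : Finset (ZMod p),
        (∀ a ∈ A, ∃ x ∈ X, ∃ b ∈ B, ∃ b' ∈ B, a = x + (b - b')) → ∀ f g : ZMod p → ℂ,
        ‖∑ a ∈ A, ∑ b ∈ A, f a * g b * χ (a - b)‖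
          ≤ (p : ℝ) ^ (-η) * (X.card * B.card)
            * ((∑ a ∈ A, ‖f a‖ ^ 2 + ∑ b ∈ A, ‖g b‖ ^ 2) / 2) := by
  classical
  obtain ⟨C, D, hC1, hD1, hgap⟩ := gap_all hK
  obtain ⟨κ, hκ0, hκε, hκD, hrest⟩ := gap_bound D hD1 δ ε hε0 (by linarith)
  refine ⟨κ, hκ0, hκε, ?_⟩
  intro k0 hk01
  obtain ⟨η, hη, P0, hform⟩ := hrest k0 hk01
  have hκ1 : 0 < κ * (D + 1) := by positivity
  have hκ1D : κ * (D + 1) * D ≤ ε := hκD
  obtain ⟨P1, hP1⟩ := large_rpow (2 * ε) (C * 3 ^ D) (by positivity)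
  obtain ⟨P2, hP2⟩ := large_rpow (2 * ε) (2 ^ D) (by positivity)
  obtain ⟨P3, hP3⟩ := large_rpow (η / 2) (C * C * (5 ^ D * C)) (by positivity)
  refine ⟨η / 2, by positivity, P0 + P1 + P2 + P3 + 3, ?_⟩
  intro p _ hp χ L _ hLdef hbadL B hBδ hBK X A hAX f g
  have hP1' := hP1 p (by omega)
  have hP2' := hP2 p (by omega)
  have hP3' := hP3 p (by omega)
  have hp3 : 3 ≤ p := by omega
  have hp1n : 1 < p := by omega
  have hp1' : (1 : ℝ) < p := by exact_mod_cast hp1n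
  have hp1 : (1 : ℝ) ≤ p := hp1'.le
  have hp0 : (0 : ℝ) < p := by linarith
  have hB0 : (0 : ℝ) < B.card := lt_of_le_of_lt (by positivity) hBδ
  have hBne : B.Nonempty := by
    rw [← Finset.card_pos]
    exact_mod_cast hB0
  have hBp : (B.card : ℝ) ≤ p := by
    have h := Finset.card_le_univ B
    rw [ZMod.card] at h
    exact_mod_cast h
  obtain ⟨k, v, R, T, hkD, hprop, hvol, hT, hcov⟩ := hgap p hp3 B hBne hBK
  set θ : ℝ := (p : ℝ) ^ (κ * (D + 1)) with hθ
  have hθ1 : 1 ≤ θ := Real.one_le_rpow hp1 hκ1.le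
  -- the long sides
  let ι : Type := {i : Fin k // θ ≤ (R i : ℝ)}
  have hιD : Fintype.card ι ≤ D := by
    have h1 : Fintype.card ι ≤ Fintype.card (Fin k) := Fintype.card_subtype_le _
    rw [Fintype.card_fin] at h1
    omega
  have hRι : ∀ i : ι, 1 ≤ R i.1 := fun i => by
    have h1 : (1 : ℝ) ≤ R i.1 := hθ1.trans i.2
    exact_mod_cast h1
  -- the box covers B
  have hBle : (B.card : ℝ) ≤ C * ∏ i, (2 * (R i : ℝ) + 1) := by
    have hsub : B ⊆ (T ×ˢ bx R).image (fun q => q.1 + lin v q.2) := by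
      intro a ha
      obtain ⟨t, ht, c, hc, e⟩ := hcov a ha
      rw [Finset.mem_image]
      exact ⟨(t, c), Finset.mem_product.2 ⟨ht, mem_bx.2 hc⟩, e.symm⟩
    have h1 := (Finset.card_le_card hsub).trans Finset.card_image_le
    rw [Finset.card_product, card_bx] at h1
    have h2 : (B.card : ℝ) ≤ T.card * ∏ i, (2 * (R i : ℝ) + 1) := by exact_mod_cast h1
    exact h2.trans (mul_le_mul_of_nonneg_right hT (Finset.prod_nonneg fun i _ => by positivity))
  -- the product over the long sides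
  have hsplit : ∏ i, (2 * (R i : ℝ) + 1) ≤ (3 * θ) ^ D * ∏ i : ι, (R i.1 : ℝ) := by
    have h1 : ∀ i : Fin k, (2 * (R i : ℝ) + 1) ≤ (3 * θ) * (if θ ≤ (R i : ℝ) then (R i : ℝ) else 1) := by
      intro i
      split_ifs with h
      · have h2 : (1 : ℝ) ≤ R i := hθ1.trans h
        nlinarith
      · have h2 := not_le.1 h
        linarith
    calc ∏ i, (2 * (R i : ℝ) + 1)
        ≤ ∏ i, ((3 * θ) * (if θ ≤ (R i : ℝ) then (R i : ℝ) else 1)) :=
          Finset.prod_le_prod (fun i _ => by positivity) (fun i _ => h1 i)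
      _ = (3 * θ) ^ k * ∏ i, (if θ ≤ (R i : ℝ) then (R i : ℝ) else 1) := by
          rw [Finset.prod_mul_distrib, Finset.prod_const, Finset.card_univ, Fintype.card_fin]
      _ = (3 * θ) ^ k * ∏ i : ι, (R i.1 : ℝ) := by
          congr 1
          rw [← Finset.prod_filter]
          exact Finset.prod_subtype _ (by intro i; simp) _
      _ ≤ _ := by
          refine mul_le_mul_of_nonneg_right (pow_le_pow_right₀ (by linarith) hkD) ?_
          exact Finset.prod_nonneg fun i _ => by positivity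
  have hθD : θ ^ D ≤ (p : ℝ) ^ ε := by
    rw [hθ, ← Real.rpow_natCast, ← Real.rpow_mul hp0.le]
    exact Real.rpow_le_rpow_of_exponent_le hp1 hκ1D
  set Xv : ℝ := (p : ℝ) ^ (δ + ε) with hXv
  have hX1 : 1 < Xv := Real.one_lt_rpow hp1' (by linarith)
  have hXR : Xv ≤ ∏ i : ι, (R i.1 : ℝ) := by
    have h1 : (p : ℝ) ^ (δ + 4 * ε) ≤ (C * 3 ^ D) * (p : ℝ) ^ ε * ∏ i : ι, (R i.1 : ℝ) := by
      calc (p : ℝ) ^ (δ + 4 * ε) ≤ B.card := hBδ.le
        _ ≤ C * ∏ i, (2 * (R i : ℝ) + 1) := hBle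
        _ ≤ C * ((3 * θ) ^ D * ∏ i : ι, (R i.1 : ℝ)) :=
            mul_le_mul_of_nonneg_left hsplit (by linarith)
        _ = (C * 3 ^ D) * θ ^ D * ∏ i : ι, (R i.1 : ℝ) := by rw [mul_pow]; ring
        _ ≤ _ := by
            refine mul_le_mul_of_nonneg_right (mul_le_mul_of_nonneg_left hθD (by positivity)) ?_
            exact Finset.prod_nonneg fun i _ => by positivity
    have h2 : (C * 3 ^ D) * (p : ℝ) ^ ε * ∏ i : ι, (R i.1 : ℝ)
        ≤ (p : ℝ) ^ (2 * ε) * (p : ℝ) ^ ε * ∏ i : ι, (R i.1 : ℝ) := by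
      refine mul_le_mul_of_nonneg_right (mul_le_mul_of_nonneg_right hP1'.le (by positivity)) ?_
      exact Finset.prod_nonneg fun i _ => by positivity
    have h3 : (p : ℝ) ^ (δ + 4 * ε) = (p : ℝ) ^ (2 * ε) * (p : ℝ) ^ ε * Xv := by
      rw [hXv, ← Real.rpow_add hp0, ← Real.rpow_add hp0]
      congr 1
      ring
    rw [h3] at h1
    exact le_of_mul_le_mul_left (h1.trans h2) (by positivity)
  obtain ⟨s, hs1, hslow, hsup⟩ := trunc_exists (fun i : ι => R i.1) hRι Xv hX1 hXR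
  have hιne : Nonempty ι := by
    by_contra hcon
    rw [not_nonempty_iff] at hcon
    have : ∏ i : ι, (R i.1 : ℝ) = 1 := by simp
    rw [this] at hXR
    linarith
  have hsR : (1 : ℝ) ≤ s := by exact_mod_cast hs1
  -- the truncated sides
  let N : ι → ℕ := fun i => min (R i.1) s
  have hsθ : θ ≤ s := by
    by_contra hcon
    have hcon := not_le.1 hcon
    have h1 : ∏ i : ι, ((min (R i.1) s : ℕ) : ℝ) ≤ (s : ℝ) ^ (Fintype.card ι) := by
      calc ∏ i : ι, ((min (R i.1) s : ℕ) : ℝ) ≤ ∏ _i : ι, (s : ℝ) :=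
            Finset.prod_le_prod (fun _ _ => by positivity) (fun i _ => by
              exact_mod_cast min_le_right _ _)
        _ = _ := by rw [Finset.prod_const, Finset.card_univ]
    have h2 : (s : ℝ) ^ (Fintype.card ι) < θ ^ (Fintype.card ι) :=
      pow_lt_pow_left₀ hcon (by linarith) Fintype.card_ne_zero
    have h3 : θ ^ (Fintype.card ι) ≤ θ ^ D := pow_le_pow_right₀ hθ1 hιD
    have h4 : (p : ℝ) ^ ε ≤ Xv := Real.rpow_le_rpow_of_exponent_le hp1 (by linarith)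
    linarith
  have hNθ : ∀ i : ι, (p : ℝ) ^ (κ * (D + 1)) ≤ N i := by
    intro i
    show θ ≤ ((min (R i.1) s : ℕ) : ℝ)
    rw [Nat.cast_min]
    exact le_min i.2 hsθ
  have hNup : ∏ i, (N i : ℝ) ≤ (p : ℝ) ^ (1 / 2 - ε) := by
    calc ∏ i, (N i : ℝ) ≤ 2 ^ Fintype.card ι * Xv := hsup
      _ ≤ 2 ^ D * Xv := mul_le_mul_of_nonneg_right (pow_le_pow_right₀ (by norm_num) hιD)
          (by positivity)
      _ ≤ (p : ℝ) ^ (2 * ε) * Xv := mul_le_mul_of_nonneg_right hP2'.le (by positivity)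
      _ = (p : ℝ) ^ (2 * ε + (δ + ε)) := by rw [hXv, ← Real.rpow_add hp0]
      _ ≤ _ := Real.rpow_le_rpow_of_exponent_le hp1 (by linarith)
  -- extension by zero
  let ext : (ι → ℤ) → (Fin k → ℤ) := fun y i => if h : θ ≤ (R i : ℝ) then y ⟨i, h⟩ else 0
  have hext : ∀ y : ι → ℤ, lin v (ext y) = lin (fun i : ι => v i.1) y := by
    intro y
    unfold lin
    have h1 : ∑ i : Fin k, ((ext y i : ℤ) : ZMod p) * v i
        = ∑ i ∈ Finset.univ.filter (fun i : Fin k => θ ≤ (R i : ℝ)),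
          ((ext y i : ℤ) : ZMod p) * v i := by
      rw [Finset.sum_filter]
      refine Finset.sum_congr rfl fun i _ => ?_
      split_ifs with h
      · rfl
      · simp [ext, h]
    rw [h1, Finset.sum_subtype (p := fun i : Fin k => θ ≤ (R i : ℝ)) _ (by intro i; simp)]
    refine Finset.sum_congr rfl fun i _ => ?_
    have : ext y i.1 = y i := by simp [ext, i.2]
    rw [this]
  have hpropN : ∀ y : ι → ℤ, (∀ i, |y i| ≤ N i) → lin (fun i : ι => v i.1) y = 0 → y = 0 := by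
    intro y hy hy0
    rw [← hext] at hy0
    have h1 := hprop (ext y) (by
      intro i
      by_cases h : θ ≤ (R i : ℝ)
      · have h2 : ext y i = y ⟨i, h⟩ := by simp [ext, h]
        rw [h2]
        refine (hy ⟨i, h⟩).trans ?_
        exact_mod_cast min_le_left _ _
      · have h2 : ext y i = 0 := by simp [ext, h]
        rw [h2]; simp) hy0
    funext i
    have h2 : ext y i.1 = y i := by simp [ext, i.2]
    rw [← h2, h1]
    rfl
  -- the decomposition
  let w : Fin k → ℕ := fun i => if θ ≤ (R i : ℝ) then min (R i) s else 1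
  have hw1 : ∀ i, 1 ≤ w i := by
    intro i
    by_cases h : θ ≤ (R i : ℝ)
    · have h2 : w i = min (R i) s := by simp [w, h]
      rw [h2]
      exact le_min (hRι ⟨i, h⟩) hs1
    · have h2 : w i = 1 := by simp [w, h]
      rw [h2]
  have hwR : ∀ i, w i ≤ R i + 1 := by
    intro i
    by_cases h : θ ≤ (R i : ℝ)
    · have h2 : w i = min (R i) s := by simp [w, h]
      rw [h2]
      exact (min_le_left _ _).trans (Nat.le_succ _)
    · have h2 : w i = 1 := by simp [w, h]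
      rw [h2]; omega
  have hwprod : ∏ i, (w i : ℝ) = ∏ i, (N i : ℝ) := by
    have h1 : ∏ i, (w i : ℝ) = ∏ i ∈ Finset.univ.filter (fun i : Fin k => θ ≤ (R i : ℝ)),
        ((min (R i) s : ℕ) : ℝ) := by
      rw [Finset.prod_filter]
      refine Finset.prod_congr rfl fun i _ => ?_
      by_cases h : θ ≤ (R i : ℝ)
      · simp [w, h]
      · simp [w, h]
    rw [h1]
    exact Finset.prod_subtype _ (by intro i; simp) _
  let J : Finset (Fin k → ℤ) := bx (fun i => 2 * R i / w i + 1)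
  have hJ : (J.card : ℝ) * ∏ i, (N i : ℝ) ≤ 5 ^ D * (C * B.card) := by
    rw [← hwprod]
    have h1 : J.card * ∏ i, w i ≤ 5 ^ k * ∏ i, (2 * R i + 1) := by
      calc J.card * ∏ i, w i = ∏ i, ((2 * (2 * R i / w i + 1) + 1) * w i) := by
            rw [card_bx, Finset.prod_mul_distrib]
        _ ≤ ∏ i, (5 * (2 * R i + 1)) := by
            refine Finset.prod_le_prod (fun _ _ => Nat.zero_le _) (fun i _ => ?_)
            have h2 : 2 * R i / w i * w i ≤ 2 * R i := Nat.div_mul_le_self _ _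
            have h3 := hwR i
            calc (2 * (2 * R i / w i + 1) + 1) * w i = 2 * (2 * R i / w i * w i) + 3 * w i := by ring
              _ ≤ 4 * R i + 3 * (R i + 1) := by omega
              _ ≤ 5 * (2 * R i + 1) := by omega
        _ = _ := by
            rw [Finset.prod_mul_distrib, Finset.prod_const, Finset.card_univ, Fintype.card_fin]
    have h2 : (J.card : ℝ) * ∏ i, (w i : ℝ) ≤ 5 ^ k * ∏ i, (2 * (R i : ℝ) + 1) := by
      exact_mod_cast h1
    refine h2.trans ?_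
    have h3 : (5 : ℝ) ^ k ≤ 5 ^ D := pow_le_pow_right₀ (by norm_num) hkD
    exact mul_le_mul h3 hvol (Finset.prod_nonneg fun i _ => by positivity) (by positivity)
  have hdec : ∀ a : ZMod p, ∃ t : ZMod p, ∃ q : Fin k → ℤ, ∃ r : ι → ℤ, a ∈ A →
      t ∈ X + (T - T) ∧ q ∈ J ∧ (∀ i, |r i| ≤ N i) ∧
        a = (t + lin v (fun i => q i * w i)) + lin (fun i : ι => v i.1) r := by
    intro a
    by_cases ha : a ∈ A
    swap
    · exact ⟨0, 0, 0, fun h => absurd h ha⟩
    obtain ⟨x, hx, b, hb, b', hb', e⟩ := hAX a ha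
    obtain ⟨t1, ht1, c1, hc1, e1⟩ := hcov b hb
    obtain ⟨t2, ht2, c2, hc2, e2⟩ := hcov b' hb'
    obtain ⟨c, hcdef⟩ : ∃ c : Fin k → ℤ, c = c1 - c2 := ⟨_, rfl⟩
    have hc : ∀ i, |c i| ≤ ((2 * R i : ℕ) : ℤ) := by
      intro i
      rw [hcdef, Pi.sub_apply]
      calc |c1 i - c2 i| ≤ |c1 i| + |c2 i| := abs_sub _ _
        _ ≤ R i + R i := add_le_add (hc1 i) (hc2 i)
        _ = ((2 * R i : ℕ) : ℤ) := by push_cast; ring
    refine ⟨x + (t1 - t2), fun i => c i / w i, fun i => c i.1 % w i.1, fun _ => ⟨?_, ?_, ?_, ?_⟩⟩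
    · exact Finset.add_mem_add hx (Finset.sub_mem_sub ht1 ht2)
    · rw [mem_bx]
      intro i
      have hwi : (0 : ℤ) < w i := by exact_mod_cast hw1 i
      have h1 := abs_le.1 (hc i)
      have h2 : c i / w i ≤ ((2 * R i : ℕ) : ℤ) / w i := Int.ediv_le_ediv hwi h1.2
      have h3 : -(((2 * R i : ℕ) : ℤ)) / w i ≤ c i / w i := Int.ediv_le_ediv hwi h1.1
      have h4 : -(((2 * R i : ℕ) : ℤ) / w i + 1) ≤ -(((2 * R i : ℕ) : ℤ)) / w i := by
        rw [Int.le_ediv_iff_mul_le hwi]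
        have h5 := Int.lt_ediv_add_one_mul_self ((2 * R i : ℕ) : ℤ) hwi
        nlinarith
      rw [abs_le]
      have h6 : ((2 * R i / w i + 1 : ℕ) : ℤ) = ((2 * R i : ℕ) : ℤ) / w i + 1 := by
        push_cast
        rfl
      rw [h6]
      constructor
      · exact h4.trans h3
      · linarith
    · intro i
      have hwi : (0 : ℤ) < w i.1 := by exact_mod_cast hw1 i.1
      have h1 := Int.emod_nonneg (c i.1) hwi.ne'
      have h2 := Int.emod_lt_of_pos (c i.1) hwi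
      have h3 : w i.1 = N i := by simp [w, N, i.2]
      rw [abs_of_nonneg h1]
      rw [h3] at h2 ⊢
      exact h2.le
    · have e3 : a = (x + (t1 - t2)) + lin v c := by
        rw [e, e1, e2, hcdef, lin_sub]
        ring
      have e4 : lin v c = lin v (fun i => c i / w i * w i)
          + lin (fun i : ι => v i.1) (fun i => c i.1 % w i.1) := by
        rw [← hext, ← lin_add]
        congr 1
        funext i
        rw [Pi.add_apply]
        by_cases h : θ ≤ (R i : ℝ)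
        · have h2 : ext (fun i : ι => c i.1 % w i.1) i = c i % w i := by simp [ext, h]
          rw [h2]
          have := Int.mul_ediv_add_emod (c i) (w i)
          linarith
        · have h2 : ext (fun i : ι => c i.1 % w i.1) i = 0 := by simp [ext, h]
          have h3 : w i = 1 := by simp [w, h]
          rw [h2]
          simp only [h3]
          simp
      rw [e3, e4]
      ring
  choose τf qf rf hdec using hdec
  set E : ℝ := (p : ℝ) ^ (-η) * ∏ i, (N i : ℝ) with hE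
  have hE0 : 0 ≤ E := mul_nonneg (by positivity) (Finset.prod_nonneg fun i _ => by positivity)
  set TJ := (X + (T - T)) ×ˢ J with hTJ
  set Fb : ZMod p × (Fin k → ℤ) → Finset (ZMod p) :=
    fun α => A.filter (fun a => (τf a, qf a) = α) with hFb
  have hmaps : ∀ a ∈ A, (τf a, qf a) ∈ TJ := fun a ha =>
    Finset.mem_product.2 ⟨(hdec a ha).1, (hdec a ha).2.1⟩
  have hsplitC : ∀ G : ZMod p → ℂ, ∑ a ∈ A, G a = ∑ α ∈ TJ, ∑ a ∈ Fb α, G a := fun G =>
    (Finset.sum_fiberwise_of_maps_to hmaps G).symm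
  have hsplitR : ∀ G : ZMod p → ℝ, ∑ α ∈ TJ, ∑ a ∈ Fb α, G a = ∑ a ∈ A, G a := fun G =>
    Finset.sum_fiberwise_of_maps_to hmaps G
  have hpiece : ∀ α β, ‖∑ a ∈ Fb α, ∑ b ∈ Fb β, f a * g b * χ (a - b)‖
      ≤ E * ((∑ a ∈ Fb α, ‖f a‖ ^ 2 + ∑ b ∈ Fb β, ‖g b‖ ^ 2) / 2) := by
    intro α β
    have hA : ∀ γ : ZMod p × (Fin k → ℤ), ∀ a ∈ Fb γ, ∃ x : ι → ℤ, (∀ i, |x i| ≤ N i) ∧
        a = (γ.1 + lin v (fun i => γ.2 i * w i)) + lin (fun i : ι => v i.1) x := by
      intro γ a ha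
      rw [hFb, Finset.mem_filter] at ha
      obtain ⟨ha1, ha2⟩ := ha
      obtain ⟨_, _, h3, h4⟩ := hdec a ha1
      refine ⟨rf a, h3, ?_⟩
      rw [← ha2]
      exact h4
    exact hform p (by omega) χ L hLdef hbadL ι hιD (fun i => v i.1) N hNθ hslow hNup hpropN _ _ (Fb α) (Fb β)
      f g (hA α) (hA β)
  have htotal : ‖∑ a ∈ A, ∑ b ∈ A, f a * g b * χ (a - b)‖
      ≤ (TJ.card : ℝ) * E * ((∑ a ∈ A, ‖f a‖ ^ 2 + ∑ b ∈ A, ‖g b‖ ^ 2) / 2) := by
    have e1 : ∑ a ∈ A, ∑ b ∈ A, f a * g b * χ (a - b)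
        = ∑ α ∈ TJ, ∑ β ∈ TJ, ∑ a ∈ Fb α, ∑ b ∈ Fb β, f a * g b * χ (a - b) := by
      rw [hsplitC]
      refine Finset.sum_congr rfl fun α _ => ?_
      rw [Finset.sum_congr rfl (fun a _ => hsplitC (fun b => f a * g b * χ (a - b))),
        Finset.sum_comm]
    rw [e1]
    refine (norm_sum_le _ _).trans ?_
    refine (Finset.sum_le_sum fun α _ => norm_sum_le _ _).trans ?_
    refine (Finset.sum_le_sum fun α _ => Finset.sum_le_sum fun β _ => hpiece α β).trans ?_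
    apply le_of_eq
    have e2 : ∀ α ∈ TJ, ∑ β ∈ TJ, E * ((∑ a ∈ Fb α, ‖f a‖ ^ 2 + ∑ b ∈ Fb β, ‖g b‖ ^ 2) / 2)
        = E / 2 * (TJ.card * ∑ a ∈ Fb α, ‖f a‖ ^ 2 + ∑ b ∈ A, ‖g b‖ ^ 2) := by
      intro α _
      rw [← Finset.mul_sum, ← Finset.sum_div, Finset.sum_add_distrib, Finset.sum_const,
        nsmul_eq_mul, hsplitR (fun b => ‖g b‖ ^ 2)]
      ring
    rw [Finset.sum_congr rfl e2, ← Finset.mul_sum, Finset.sum_add_distrib, ← Finset.mul_sum,
      hsplitR (fun a => ‖f a‖ ^ 2), Finset.sum_const, nsmul_eq_mul]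
    ring
  refine htotal.trans (mul_le_mul_of_nonneg_right ?_ ?_)
  swap
  · have h1 : 0 ≤ ∑ a ∈ A, ‖f a‖ ^ 2 := Finset.sum_nonneg fun _ _ => by positivity
    have h2 : 0 ≤ ∑ b ∈ A, ‖g b‖ ^ 2 := Finset.sum_nonneg fun _ _ => by positivity
    positivity
  have hTJcard : (TJ.card : ℝ) ≤ (X.card * (C * C)) * J.card := by
    rw [hTJ, Finset.card_product]
    push_cast
    refine mul_le_mul_of_nonneg_right ?_ (Nat.cast_nonneg _)
    have h1 : (X + (T - T)).card ≤ X.card * (T.card * T.card) :=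
      Finset.card_add_le.trans (Nat.mul_le_mul_left _ Finset.card_sub_le)
    have h2 : ((X + (T - T)).card : ℝ) ≤ X.card * (T.card * T.card) := by exact_mod_cast h1
    refine h2.trans (mul_le_mul_of_nonneg_left ?_ (Nat.cast_nonneg _))
    exact mul_le_mul hT hT (Nat.cast_nonneg _) (by linarith)
  have hNpos : 0 ≤ ∏ i, (N i : ℝ) := Finset.prod_nonneg fun i _ => by positivity
  calc (TJ.card : ℝ) * E ≤ ((X.card * (C * C)) * J.card) * E :=
        mul_le_mul_of_nonneg_right hTJcard hE0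
    _ = (p : ℝ) ^ (-η) * ((X.card * (C * C)) * (J.card * ∏ i, (N i : ℝ))) := by
        rw [hE]; ring
    _ ≤ (p : ℝ) ^ (-η) * ((X.card * (C * C)) * (5 ^ D * (C * B.card))) := by
        refine mul_le_mul_of_nonneg_left ?_ (by positivity)
        exact mul_le_mul_of_nonneg_left hJ (by positivity)
    _ = (p : ℝ) ^ (-η) * (C * C * (5 ^ D * C)) * (X.card * B.card) := by ring
    _ ≤ (p : ℝ) ^ (-η) * (p : ℝ) ^ (η / 2) * (X.card * B.card) := by
        refine mul_le_mul_of_nonneg_right (mul_le_mul_of_nonneg_left hP3'.le (by positivity))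
          (by positivity)
    _ = (p : ℝ) ^ (-(η / 2)) * (X.card * B.card) := by
        rw [← Real.rpow_add hp0]
        congr 2
        ring

end Pool.Agent.W27.BG
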