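import Pool.Agent.W27.SD.Toeplitz

/-! Toeplitz forms with arbitrary coefficients. -/

set_option autoImplicit false

open Finset

namespace Pool.Agent.W27.BG

open Pool.Agent.W27.SD

theorem parseval_w (L : ℕ) [NeZero (2 * L)] (a : ℤ → ℂ) :
    ∑ σ : ZMod (2 * L), ‖∑ i ∈ Finset.Ico 0 (L : ℤ), a i * ps (2 * L) σ i‖ ^ 2
      = (2 * L : ℝ) * ∑ i ∈ Finset.Ico 0 (L : ℤ), ‖a i‖ ^ 2 := by
  have h1 : ∀ σ : ZMod (2 * L),
      ((‖∑ i ∈ Finset.Ico 0 (L : ℤ), a i * ps (2 * L) σ i‖ ^ 2 : ℝ) : ℂ)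
      = ∑ i ∈ Finset.Ico 0 (L : ℤ), ∑ j ∈ Finset.Ico 0 (L : ℤ),
        (a i * (starRingEnd ℂ) (a j)) * ps (2 * L) σ (i - j) := by
    intro σ
    rw [← Complex.normSq_eq_norm_sq, ← Complex.mul_conj, map_sum, Finset.sum_mul_sum]
    refine Finset.sum_congr rfl fun i _ => Finset.sum_congr rfl fun j _ => ?_
    rw [ps_sub, map_mul]
    ring
  have h2 : ((∑ σ : ZMod (2 * L), ‖∑ i ∈ Finset.Ico 0 (L : ℤ), a i * ps (2 * L) σ i‖ ^ 2 : ℝ) : ℂ)
      = ((2 * L : ℝ) * ∑ i ∈ Finset.Ico 0 (L : ℤ), ‖a i‖ ^ 2 : ℝ) := by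
    rw [Complex.ofReal_sum, Finset.sum_congr rfl (fun σ _ => h1 σ), Finset.sum_comm]
    have h3 : ∀ i ∈ Finset.Ico 0 (L : ℤ), ∑ σ : ZMod (2 * L), ∑ j ∈ Finset.Ico 0 (L : ℤ),
        (a i * (starRingEnd ℂ) (a j)) * ps (2 * L) σ (i - j)
        = (2 * L : ℂ) * (a i * (starRingEnd ℂ) (a i)) := by
      intro i hi
      rw [Finset.sum_comm]
      have h4 : ∀ j ∈ Finset.Ico 0 (L : ℤ), ∑ σ : ZMod (2 * L),
          (a i * (starRingEnd ℂ) (a j)) * ps (2 * L) σ (i - j)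
          = if i = j then (2 * L : ℂ) * (a i * (starRingEnd ℂ) (a j)) else 0 := by
        intro j hj
        have hi' := Finset.mem_Ico.1 hi
        have hj' := Finset.mem_Ico.1 hj
        rw [← Finset.mul_sum,
          ps_sum_small _ _ (by rw [abs_lt]; push_cast; constructor <;> omega)]
        by_cases hij : i = j
        · subst hij; simp; ring
        · rw [if_neg hij, if_neg (by omega), mul_zero]
      rw [Finset.sum_congr rfl h4, Finset.sum_ite_eq, if_pos hi]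
    rw [Finset.sum_congr rfl h3, ← Finset.mul_sum]
    push_cast
    congr 1
    refine Finset.sum_congr rfl fun i _ => ?_
    rw [Complex.mul_conj, Complex.normSq_eq_norm_sq]
    push_cast
    rfl
  exact_mod_cast h2

theorem toeplitz_w (L : ℕ) [NeZero (2 * L)] (f : ℤ → ℂ) (B : ℝ) (hB0 : 0 ≤ B)
    (hB : ∀ σ : ZMod (2 * L), ‖∑ h ∈ Finset.Ioo (-(L : ℤ)) L, f h * ps (2 * L) σ h‖ ≤ B)
    (a b : ℤ → ℂ) :
    ‖∑ i ∈ Finset.Ico 0 (L : ℤ), ∑ j ∈ Finset.Ico 0 (L : ℤ), a i * b j * f (i - j)‖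
      ≤ B * (((∑ i ∈ Finset.Ico 0 (L : ℤ), ‖a i‖ ^ 2) + ∑ j ∈ Finset.Ico 0 (L : ℤ), ‖b j‖ ^ 2) / 2) := by
  have hL0 : 0 < L := by
    rcases Nat.eq_zero_or_pos L with h | h
    · exfalso
      subst h
      exact NeZero.ne (2 * 0) rfl
    · exact h
  have hLR : (0 : ℝ) < 2 * L := by positivity
  set I := Finset.Ico 0 (L : ℤ) with hI
  -- Fourier inversion
  have key : (2 * L : ℂ) * ∑ i ∈ I, ∑ j ∈ I, a i * b j * f (i - j)
      = ∑ σ : ZMod (2 * L), (∑ h ∈ Finset.Ioo (-(L : ℤ)) L, f h * ps (2 * L) σ h) *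
        ((starRingEnd ℂ) (∑ i ∈ I, (starRingEnd ℂ) (a i) * ps (2 * L) σ i) *
          ∑ j ∈ I, b j * ps (2 * L) σ j) := by
    have e1 : ∀ i ∈ I, ∀ j ∈ I, (2 * L : ℂ) * (a i * b j * f (i - j))
        = ∑ σ : ZMod (2 * L), ∑ h ∈ Finset.Ioo (-(L : ℤ)) L,
          (a i * b j) * (f h * ps (2 * L) σ (h - (i - j))) := by
      intro i hi j hj
      have hi' := Finset.mem_Ico.1 hi
      have hj' := Finset.mem_Ico.1 hj
      rw [Finset.sum_comm]
      have e2 : ∀ h ∈ Finset.Ioo (-(L : ℤ)) L,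
          ∑ σ : ZMod (2 * L), (a i * b j) * (f h * ps (2 * L) σ (h - (i - j)))
          = if h = i - j then (a i * b j) * (f h * (2 * L : ℂ)) else 0 := by
        intro h hh
        have hh' := Finset.mem_Ioo.1 hh
        rw [← Finset.mul_sum, ← Finset.mul_sum,
          ps_sum_small _ _ (by rw [abs_lt]; push_cast; constructor <;> omega)]
        by_cases hij : h = i - j
        · rw [if_pos (by omega), if_pos hij]
          push_cast
          ring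
        · rw [if_neg (by omega), if_neg hij, mul_zero, mul_zero]
      rw [Finset.sum_congr rfl e2, Finset.sum_ite_eq', if_pos]
      · ring
      · rw [Finset.mem_Ioo]; constructor <;> omega
    rw [Finset.mul_sum]
    have e3 : ∀ i ∈ I, (2 * L : ℂ) * ∑ j ∈ I, a i * b j * f (i - j)
        = ∑ σ : ZMod (2 * L), ∑ j ∈ I, ∑ h ∈ Finset.Ioo (-(L : ℤ)) L,
          (a i * b j) * (f h * ps (2 * L) σ (h - (i - j))) := by
      intro i hi
      rw [Finset.mul_sum, Finset.sum_congr rfl (fun j hj => e1 i hi j hj), Finset.sum_comm]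
    rw [Finset.sum_congr rfl e3, Finset.sum_comm]
    refine Finset.sum_congr rfl fun σ _ => ?_
    rw [map_sum, Finset.sum_mul_sum, Finset.mul_sum]
    refine Finset.sum_congr rfl fun i _ => ?_
    rw [Finset.mul_sum]
    refine Finset.sum_congr rfl fun j _ => ?_
    rw [Finset.sum_mul]
    refine Finset.sum_congr rfl fun h _ => ?_
    rw [ps_sub, ps_sub]
    simp only [map_mul, Complex.conj_conj]
    ring
  have hnorm : (2 * L : ℝ) * ‖∑ i ∈ I, ∑ j ∈ I, a i * b j * f (i - j)‖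
      ≤ (2 * L : ℝ) * (B * (((∑ i ∈ I, ‖a i‖ ^ 2) + ∑ j ∈ I, ‖b j‖ ^ 2) / 2)) := by
    have h1 : (2 * L : ℝ) * ‖∑ i ∈ I, ∑ j ∈ I, a i * b j * f (i - j)‖
        = ‖(2 * L : ℂ) * ∑ i ∈ I, ∑ j ∈ I, a i * b j * f (i - j)‖ := by
      rw [norm_mul]
      congr 1
      have : (2 * L : ℂ) = ((2 * L : ℝ) : ℂ) := by push_cast; ring
      rw [this, Complex.norm_real, Real.norm_of_nonneg hLR.le]
    rw [h1, key]
    refine (norm_sum_le _ _).trans ?_
    have h2 : ∀ σ : ZMod (2 * L), ‖(∑ h ∈ Finset.Ioo (-(L : ℤ)) L, f h * ps (2 * L) σ h) *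
        ((starRingEnd ℂ) (∑ i ∈ I, (starRingEnd ℂ) (a i) * ps (2 * L) σ i) *
          ∑ j ∈ I, b j * ps (2 * L) σ j)‖
        ≤ B * ((‖∑ i ∈ I, (starRingEnd ℂ) (a i) * ps (2 * L) σ i‖ ^ 2
          + ‖∑ j ∈ I, b j * ps (2 * L) σ j‖ ^ 2) / 2) := by
      intro σ
      rw [norm_mul, norm_mul, RCLike.norm_conj]
      refine mul_le_mul (hB σ) ?_ (by positivity) hB0
      nlinarith [sq_nonneg (‖∑ i ∈ I, (starRingEnd ℂ) (a i) * ps (2 * L) σ i‖
        - ‖∑ j ∈ I, b j * ps (2 * L) σ j‖)]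
    refine (Finset.sum_le_sum fun σ _ => h2 σ).trans ?_
    rw [← Finset.mul_sum, ← Finset.sum_div, Finset.sum_add_distrib, parseval_w L, parseval_w L]
    apply le_of_eq
    simp only [RCLike.norm_conj]
    ring
  exact le_of_mul_le_mul_left hnorm hLR

end Pool.Agent.W27.BG
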